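import Pool.Agent.W460.CG.Gen

/-!
# Data from a finite set of rational numbers
-/

set_option autoImplicit false

namespace Pool.Agent.D0H5.CGX

open Polynomial Pool.Agent.W289.CG Pool.Agent.W460.CG

theorem of_set {n k : ℕ} (j₀ : Fin k) (b : Fin k → ℤ) (hb : Function.Injective b) (S : Finset ℚ)
    (v : ℚ) (hcard : S.card = n) (hv : 0 < v) (h3 : ∀ j, (PS S).eval (b j : ℚ) = v)
    (hd : ∀ j, (derivative (PS S)).eval (b j : ℚ) ≠ 0) (hlt : ∀ j, ∃ s ∈ S, (b j : ℚ) < s) :
    ∃ (D : Dat n k) (d : ℕ) (e : Fin n ≃ S), 0 < d ∧ ∀ i, (D.a i : ℚ) = d * (e i : ℚ) := by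
  classical
  let e : Fin n ≃ S := (S.equivFinOfCardEq hcard).symm
  let D : ℕ := ∏ t ∈ S, t.den
  have hD : 0 < D := Finset.prod_pos fun t _ => t.den_pos
  have hDQ : (0 : ℚ) < D := by exact_mod_cast hD
  have hz : ∀ i : Fin n, ∃ z : ℤ, (z : ℚ) = D * (e i : ℚ) := by
    intro i
    obtain ⟨m, hm⟩ : (e i : ℚ).den ∣ D := Finset.dvd_prod_of_mem _ (e i).2
    refine ⟨m * (e i : ℚ).num, ?_⟩
    rw [hm]
    push_cast
    have h1 := Rat.num_div_den (e i : ℚ)
    have h2 : ((e i : ℚ).den : ℚ) ≠ 0 := by exact_mod_cast (e i : ℚ).den_ne_zero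
    rw [div_eq_iff h2] at h1
    rw [h1]
    ring
  choose a ha using hz
  have hprod : ∀ y : ℚ, ∏ i, (y - (e i : ℚ)) = (PS S).eval y := by
    intro y
    unfold PS
    rw [eval_prod, Equiv.prod_comp e (fun s : S => y - (s : ℚ)),
      Finset.prod_coe_sort S (fun s => y - s)]
    exact Finset.prod_congr rfl fun s _ => by simp
  have hev : ∀ (z : ℤ) (y : ℚ), (z : ℚ) = D * y →
      (((pA a).eval z : ℤ) : ℚ) = (D : ℚ) ^ n * (PS S).eval y := by
    intro z y hzy
    unfold pA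
    rw [eval_prod]
    simp only [eval_sub, eval_X, eval_C]
    push_cast
    rw [← hprod y]
    have : ∀ i, (z : ℚ) - (a i : ℚ) = D * (y - (e i : ℚ)) := by
      intro i
      rw [hzy, ha]
      ring
    rw [Finset.prod_congr rfl fun i _ => this i, Finset.prod_mul_distrib, Finset.prod_const,
      Finset.card_univ, Fintype.card_fin]
  have hbD : ∀ j, (((D : ℤ) * b j : ℤ) : ℚ) = D * (b j : ℚ) := by
    intro j
    push_cast
    ring
  have hcomp : ((pA a).map (Int.castRingHom ℚ)).comp (C (D : ℚ) * X) =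
      C ((D : ℚ) ^ n) * PS S := by
    unfold pA PS
    rw [Polynomial.map_prod, prod_comp]
    have h1 : ∏ s ∈ S, (X - C s : ℚ[X]) = ∏ i, (X - C (e i : ℚ)) := by
      rw [Equiv.prod_comp e (fun s : S => (X - C (s : ℚ) : ℚ[X])),
        Finset.prod_coe_sort S (fun s => (X - C s : ℚ[X]))]
    rw [h1]
    have h2 : ∀ i, ((X - C (a i)).map (Int.castRingHom ℚ)).comp (C (D : ℚ) * X) =
        C (D : ℚ) * (X - C (e i : ℚ)) := by
      intro i
      rw [Polynomial.map_sub, map_X, map_C, sub_comp, X_comp, C_comp]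
      change C (D : ℚ) * X - C ((a i : ℤ) : ℚ) = _
      rw [ha, C_mul]
      ring
    rw [Finset.prod_congr rfl fun i _ => h2 i, Finset.prod_mul_distrib, Finset.prod_const,
      Finset.card_univ, Fintype.card_fin, C_pow]
  refine ⟨{ a := a, b := fun j => (D : ℤ) * b j, c := (pA a).eval ((D : ℤ) * b j₀), ha := ?_,
            hb := ?_, hc := ?_, hab := ?_, hder := ?_, hlt := ?_ }, D, e, hD, ha⟩
  · intro i j hij
    apply e.injective
    apply Subtype.ext
    have h1 := ha i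
    rw [hij, ha j] at h1
    exact (mul_left_cancel₀ hDQ.ne' h1).symm
  · intro i j hij
    apply hb
    have hD0 : (D : ℤ) ≠ 0 := by exact_mod_cast hD.ne'
    exact mul_left_cancel₀ hD0 hij
  · have h1 := hev _ _ (hbD j₀)
    rw [h3 j₀] at h1
    have h2 : (0 : ℚ) < (((pA a).eval ((D : ℤ) * b j₀) : ℤ) : ℚ) := by
      rw [h1]
      positivity
    exact_mod_cast h2
  · intro j
    have h1 := hev _ _ (hbD j)
    have h2 := hev _ _ (hbD j₀)
    rw [h3 j] at h1
    rw [h3 j₀, ← h1] at h2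
    exact_mod_cast h2.symm
  · intro j h0
    apply hd j
    have h1 := congrArg derivative hcomp
    rw [derivative_comp, derivative_C_mul, derivative_C_mul, derivative_X, mul_one] at h1
    have h2 := congrArg (eval (b j : ℚ)) h1
    rw [eval_mul, eval_C, eval_comp, eval_mul, eval_C, eval_X, eval_mul, eval_C] at h2
    have h4 : eval ((D : ℚ) * (b j : ℚ)) (derivative ((pA a).map (Int.castRingHom ℚ))) = 0 := by
      rw [← hbD j, derivative_map]
      have h5 : (((D : ℤ) * b j : ℤ) : ℚ) = Int.castRingHom ℚ ((D : ℤ) * b j) := rfl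
      rw [h5, eval_map, eval₂_hom, h0, map_zero]
    rw [h4, mul_zero] at h2
    have h5 : ((D : ℚ) ^ n) ≠ 0 := by positivity
    exact (mul_eq_zero.1 h2.symm).resolve_left h5
  · intro j
    obtain ⟨s, hs, hs1⟩ := hlt j
    refine ⟨e.symm ⟨s, hs⟩, ?_⟩
    have h1 := ha (e.symm ⟨s, hs⟩)
    rw [Equiv.apply_symm_apply] at h1
    have h2 : (((D : ℤ) * b j : ℤ) : ℚ) < (a (e.symm ⟨s, hs⟩) : ℤ) := by
      rw [h1, hbD j]
      exact mul_lt_mul_of_pos_left hs1 hDQ
    exact_mod_cast h2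

end Pool.Agent.D0H5.CGX
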