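import Pool.Agent.D0H5.CGX.Near
import Pool.Agent.D0H5.CGX.Set

/-!
# Assembly
-/

set_option autoImplicit false

namespace Pool.Agent.D0H5.CGX

open Finset Polynomial Pool.Agent.W460.CG Pool.Agent.W289.CG

variable {k : ℕ}

lemma exists_X (P : Par k) : ∃ X : ℤ, 0 ≤ X ∧ (∀ i j S, - X ≤ P.cc i j S ∧ P.cc i j S ≤ X) ∧
    ∀ j S, - X ≤ P.sg j S := by
  obtain ⟨A, hA⟩ := (Set.finite_range
    (fun t : Fin k × Fin k × Finset (Fin k) => |P.cc t.1 t.2.1 t.2.2|)).bddAbove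
  obtain ⟨B, hB⟩ := (Set.finite_range (fun t : Fin k × Finset (Fin k) => |P.sg t.1 t.2|)).bddAbove
  refine ⟨|A| + |B|, by positivity, fun i j S => ?_, fun j S => ?_⟩
  · have h1 : |P.cc i j S| ≤ A := hA ⟨(i, j, S), rfl⟩
    have h2 := abs_le.1 (h1.trans (le_abs_self A))
    have h3 := abs_nonneg B
    constructor <;> omega
  · have h1 : |P.sg j S| ≤ B := hB ⟨(j, S), rfl⟩
    have h2 := abs_le.1 (h1.trans (le_abs_self B))
    have h3 := abs_nonneg A
    omega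

/-- the value of the derivative of a product of linear factors -/
lemma deriv_PS (S : Finset ℚ) (x : ℚ) (hx : ∀ s ∈ S, x ≠ s) :
    (derivative (PS S)).eval x = (PS S).eval x * ∑ s ∈ S, 1 / (x - s) := by
  classical
  unfold PS
  induction S using Finset.induction_on with
  | empty => simp
  | insert a S ha ih =>
    have h1 : x - a ≠ 0 := sub_ne_zero.2 (hx a (Finset.mem_insert_self a S))
    rw [Finset.prod_insert ha, Finset.sum_insert ha, derivative_mul, eval_add, eval_mul, eval_mul,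
      ih fun s hs => hx s (Finset.mem_insert_of_mem hs)]
    simp only [derivative_sub, derivative_X, derivative_C, sub_zero, eval_one, eval_sub, eval_X,
      eval_C, eval_mul]
    field_simp

/-- the triples -/
noncomputable def Tt (M : Fin k → Finset ℤ) (u₀ u₁ : ℤ) : Finset (Fin k × ℤ × Finset (Fin k)) :=
  (univ ×ˢ (Ioc u₀ u₁) ×ˢ univ).filter fun t => t.2.2 ∈ pr M t.1 t.2.1

lemma mem_Tt {M : Fin k → Finset ℤ} {u₀ u₁ : ℤ} {t : Fin k × ℤ × Finset (Fin k)} :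
    t ∈ Tt M u₀ u₁ ↔ (u₀ < t.2.1 ∧ t.2.1 ≤ u₁) ∧ t.2.2 ∈ pr M t.1 t.2.1 := by
  unfold Tt
  rw [Finset.mem_filter, Finset.mem_product, Finset.mem_product, Finset.mem_Ioc]
  simp only [Finset.mem_univ, true_and, and_true]

lemma prod_Tt {A : Type} [CommMonoid A] (M : Fin k → Finset ℤ) (u₀ u₁ : ℤ)
    (f : Fin k → ℤ → Finset (Fin k) → A) :
    ∏ t ∈ Tt M u₀ u₁, f t.1 t.2.1 t.2.2 = ∏ j, ∏ u ∈ Ioc u₀ u₁, ∏ S ∈ pr M j u, f j u S := by
  unfold Tt
  rw [Finset.prod_filter, Finset.prod_product]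
  apply Finset.prod_congr rfl
  intro j _
  rw [Finset.prod_product]
  apply Finset.prod_congr rfl
  intro u _
  change ∏ S, (if S ∈ pr M j u then f j u S else 1) = _
  rw [← Finset.prod_filter]
  congr 1
  ext S
  simp

lemma sum_Tt {A : Type} [AddCommMonoid A] (M : Fin k → Finset ℤ) (u₀ u₁ : ℤ)
    (f : Fin k → ℤ → Finset (Fin k) → A) :
    ∑ t ∈ Tt M u₀ u₁, f t.1 t.2.1 t.2.2 = ∑ j, ∑ u ∈ Ioc u₀ u₁, ∑ S ∈ pr M j u, f j u S :=
  prod_Tt (A := Multiplicative A) M u₀ u₁ f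

/-- additional elements: below all points, and the product of the differences is `x i / D` with
`x i ≡ 1` modulo `W` -/
structure Ext (P : Par k) (W : ℤ) (E : Finset ℚ) (x : Fin k → ℤ) (D : ℚ) : Prop where
  pos : ∀ i, 1 ≤ x i
  mod : ∀ i, W ∣ x i - 1
  Dp : 0 < D
  prod : ∀ i, ∏ e ∈ E, ((P.b i : ℚ) - e) = x i / D
  low : ∀ e ∈ E, ∀ i, e ≤ P.b i - 1

theorem set_of (hk : 2 ≤ k) (P : Par k) (X u₀ u₁ : ℤ) (T : ℕ) (B : Bds P X u₀ T)
    (M : Fin k → Finset ℤ) (α : ℕ) (h01 : u₀ < u₁) (hMs : ∀ j, M j ⊆ Ioc u₀ u₁)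
    (hMc : ∀ j, (M j).card = α) (hev : Even ((Ioc u₀ u₁).card * (evs k).card + α)) (c : ℚ)
    (hc0 : 0 < c) (E : Finset ℚ) (x : Fin k → ℤ) (D : ℚ) (hE : Ext P (2 ^ k) E x D)
    (hT : 2 * k + E.card ≤ T)
    (hM : ∀ i, (∏ u ∈ M i, (rho (2 ^ k) u : ℚ)) =
      c * (∏ t ∈ Tr P X i, Kq (2 ^ k) u₀ u₁ t.2.2) * x i) :
    ∃ (S : Finset ℚ) (v : ℚ), E ⊆ S ∧
      S.card = k * ((Ioc u₀ u₁).card * (evs k).card + α) + E.card ∧
      0 < v ∧ (∀ i, (PS S).eval (P.b i : ℚ) = v) ∧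
      (∀ i, (derivative (PS S)).eval (P.b i : ℚ) ≠ 0) ∧ (∀ i, ∃ s ∈ S, (P.b i : ℚ) < s) ∧
      ∀ s ∈ S, s ∉ E → ∃ i, |(P.b i : ℚ) - s| ≤ 1 / 2 := by
  classical
  have hk0 : 0 < k := by omega
  have hW : (0 : ℤ) < 2 ^ k := by positivity
  have hX := B.uX hk0
  obtain ⟨w, hw0, hw⟩ := value hk0 P (2 ^ k) X u₀ u₁ M α hW h01.le hX B.cc B.sg hMs hMc hev c
    (fun i => (x i : ℚ)) hc0 hM
  have hx0 : ∀ i, (0 : ℚ) < x i := fun i => by
    have := hE.pos i
    exact_mod_cast (by omega : 0 < x i)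
  let el : Fin k × ℤ × Finset (Fin k) → ℚ := fun t => P.el (2 ^ k) t.1 t.2.1 t.2.2
  have hinj : Set.InjOn el (Tt M u₀ u₁ : Set (Fin k × ℤ × Finset (Fin k))) := by
    intro s hs t ht hst
    rw [Finset.mem_coe, mem_Tt] at hs ht
    obtain ⟨h1, h2, h3⟩ := B.inj hk0 hs.1.1 ht.1.1 (pr_nonempty hs.2) hst
    exact Prod.ext h1 (Prod.ext h2 h3)
  let U : Finset ℚ := (Tt M u₀ u₁).image el
  have hdis : Disjoint U E := by
    rw [Finset.disjoint_left]
    intro s hs hsE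
    rw [Finset.mem_image] at hs
    obtain ⟨t, ht, rfl⟩ := hs
    rw [mem_Tt] at ht
    have h1 := hE.low _ hsE t.1
    have h2 := B.near' hk0 hW t.1 ht.1.1 t.2.2
    have h3 := le_abs_self ((P.b t.1 : ℚ) - P.el (2 ^ k) t.1 t.2.1 t.2.2)
    have h4 : P.el (2 ^ k) t.1 t.2.1 t.2.2 ≤ P.b t.1 - 1 := h1
    linarith
  have hcard : (Tt M u₀ u₁).card = k * ((Ioc u₀ u₁).card * (evs k).card + α) := by
    rw [Finset.card_eq_sum_ones, sum_Tt M u₀ u₁ fun _ _ _ => 1]
    have h1 : ∀ j ∈ (univ : Finset (Fin k)), ∑ u ∈ Ioc u₀ u₁, ∑ _S ∈ pr M j u, 1 =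
        (Ioc u₀ u₁).card * (evs k).card + α := by
      intro j _
      simp only [← Finset.card_eq_sum_ones]
      rw [sum_card_pr hk0 M j _ (hMs j), hMc j]
    rw [Finset.sum_congr rfl h1, Finset.sum_const, Finset.card_univ, Fintype.card_fin, smul_eq_mul]
  have hPS : ∀ i, (PS (U ∪ E)).eval (P.b i : ℚ) = w / D := by
    intro i
    have h1 : (PS (U ∪ E)).eval (P.b i : ℚ) = ∏ s ∈ U ∪ E, ((P.b i : ℚ) - s) := by
      unfold PS
      rw [eval_prod]
      simp
    rw [h1, Finset.prod_union hdis, Finset.prod_image hinj, hE.prod i, ← hw i]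
    have h2 : ∏ t ∈ Tt M u₀ u₁, ((P.b i : ℚ) - el t) = F P (2 ^ k) M u₀ u₁ i :=
      prod_Tt M u₀ u₁ fun j u S => (P.b i : ℚ) - P.el (2 ^ k) j u S
    rw [h2]
    ring
  have hvp : 0 < w / D := div_pos hw0 hE.Dp
  have hne : ∀ i, ∀ s ∈ U ∪ E, (P.b i : ℚ) ≠ s := by
    intro i s hs h
    have h1 := hPS i
    have h2 : (PS (U ∪ E)).eval (P.b i : ℚ) = 0 := by
      unfold PS
      rw [eval_prod]
      exact Finset.prod_eq_zero hs (by simp [h])
    rw [h2] at h1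
    exact hvp.ne h1
  refine ⟨U ∪ E, w / D, Finset.subset_union_right, ?_, hvp, hPS, ?_, ?_, ?_⟩
  · rw [Finset.card_union_of_disjoint hdis, Finset.card_image_of_injOn hinj, hcard]
  · intro i h0
    rw [deriv_PS _ _ (hne i), hPS i] at h0
    have h0' := (mul_eq_zero.1 h0).resolve_left hvp.ne'
    set σ : ℚ := ((SignType.sign (P.ka i) : ℤ) : ℚ) with hσ
    have h1 : σ * ∑ s ∈ U ∪ E, 1 / ((P.b i : ℚ) - s) = 0 := by rw [h0', mul_zero]
    rw [Finset.sum_union hdis, Finset.sum_image hinj, mul_add, Finset.mul_sum, Finset.mul_sum] at h1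
    have h2 : - (E.card : ℚ) ≤ ∑ e ∈ E, σ * (1 / ((P.b i : ℚ) - e)) := by
      have h3 : ∀ e ∈ E, (-1 : ℚ) ≤ σ * (1 / ((P.b i : ℚ) - e)) := by
        intro e he
        have h4 := sgn_bound P i (1 / ((P.b i : ℚ) - e))
        have h5 := hE.low e he i
        have h6 : |1 / ((P.b i : ℚ) - e)| ≤ 1 := by
          rw [abs_div, abs_one, abs_of_pos (by linarith), div_le_one (by linarith)]
          linarith
        linarith
      have h7 := Finset.sum_le_sum h3
      rw [Finset.sum_const, nsmul_eq_mul] at h7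
      linarith
    have h8 : ∑ t ∈ Tt M u₀ u₁, σ * (1 / ((P.b i : ℚ) - el t)) =
        ∑ j, ∑ u ∈ Ioc u₀ u₁, ∑ S ∈ pr M j u, σ * (1 / ((P.b i : ℚ) - P.el (2 ^ k) j u S)) :=
      sum_Tt M u₀ u₁ fun j u S => σ * (1 / ((P.b i : ℚ) - P.el (2 ^ k) j u S))
    set ct : ℕ := (Ioc u₀ u₁).card * (evs k).card + α with hct
    have h9 : ∀ j, (ct : ℚ) * (if j = i then (T : ℚ) else - 2) ≤
        ∑ u ∈ Ioc u₀ u₁, ∑ S ∈ pr M j u, σ * (1 / ((P.b i : ℚ) - P.el (2 ^ k) j u S)) := by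
      intro j
      have h10 : (ct : ℚ) * (if j = i then (T : ℚ) else - 2) =
          ∑ u ∈ Ioc u₀ u₁, ∑ _S ∈ pr M j u, (if j = i then (T : ℚ) else - 2) := by
        simp only [Finset.sum_const, nsmul_eq_mul]
        rw [← Finset.sum_mul]
        congr 1
        have h20 := sum_card_pr hk0 M j _ (hMs j)
        rw [hMc j, ← hct] at h20
        exact_mod_cast h20.symm
      rw [h10]
      apply Finset.sum_le_sum
      intro u hu
      rw [Finset.mem_Ioc] at hu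
      apply Finset.sum_le_sum
      intro S hS
      split_ifs with hji
      · subst hji
        exact B.inv_self hk0 hW j hu.1 (pr_nonempty hS)
      · exact B.inv_far hk0 hW (Ne.symm hji) hu.1 S
    have h11 : ∑ j, (ct : ℚ) * (if j = i then (T : ℚ) else - 2) = ct * (T - 2 * (k - 1)) := by
      rw [← Finset.mul_sum]
      congr 1
      rw [← Finset.add_sum_erase univ _ (Finset.mem_univ i), if_pos rfl]
      have h12 : ∀ j ∈ univ.erase i, (if j = i then (T : ℚ) else - 2) = - 2 := by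
        intro j hj
        rw [if_neg (Finset.mem_erase.1 hj).1]
      rw [Finset.sum_congr rfl h12, Finset.sum_const, Finset.card_erase_of_mem (Finset.mem_univ i),
        Finset.card_univ, Fintype.card_fin, nsmul_eq_mul, Nat.cast_sub (by omega)]
      push_cast
      ring
    have h13 : (ct : ℚ) * (T - 2 * (k - 1)) ≤ ∑ t ∈ Tt M u₀ u₁, σ * (1 / ((P.b i : ℚ) - el t)) := by
      rw [h8, ← h11]
      exact Finset.sum_le_sum fun j _ => h9 j
    have h14 : (1 : ℚ) ≤ ct := by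
      have h15 : 0 < (Ioc u₀ u₁).card := Finset.card_pos.2 ⟨u₁, by rw [Finset.mem_Ioc]; omega⟩
      have h16 := evs_pos hk
      have h17 : 0 < (Ioc u₀ u₁).card * (evs k).card := Nat.mul_pos h15 h16
      exact_mod_cast (by omega : 1 ≤ ct)
    have h18 : (2 * k + E.card : ℚ) ≤ T := by exact_mod_cast hT
    have h19 : (0 : ℚ) ≤ E.card := by positivity
    nlinarith
  · intro i
    -- the largest point
    obtain ⟨m, -, hm⟩ := Finset.exists_max_image (univ : Finset (Fin k)) (fun j => P.b j)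
      ⟨i, Finset.mem_univ i⟩
    have hka : P.ka m < 0 := by
      have h1 := P.hka m
      have h2 : 0 < ∏ j ∈ univ.erase m, (P.b m - P.b j) := by
        apply Finset.prod_pos
        intro j hj
        have h3 := hm j (Finset.mem_univ j)
        have h4 : P.b j ≠ P.b m := fun h => (Finset.mem_erase.1 hj).1 (P.hb h)
        omega
      have h3 := P.hC
      by_contra h
      have h4 : 0 ≤ P.ka m * ∏ j ∈ univ.erase m, (P.b m - P.b j) :=
        mul_nonneg (not_lt.1 h) h2.le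
      omega
    obtain ⟨S, hS⟩ : ∃ S, S ∈ pr M m u₁ := by
      have h1 : 0 < (pr M m u₁).card := by
        rw [card_pr hk0]
        have := evs_pos hk
        omega
      exact Finset.card_pos.1 h1
    refine ⟨P.el (2 ^ k) m u₁ S, ?_, ?_⟩
    · apply Finset.mem_union_left
      exact Finset.mem_image_of_mem el (mem_Tt.2 ⟨⟨h01, le_refl _⟩, hS⟩ : (m, u₁, S) ∈ Tt M u₀ u₁)
    · have h1 := B.sub_pos hk0 hW m h01 (pr_nonempty hS)
      have h2 : (P.ka m : ℚ) < 0 := by exact_mod_cast hka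
      have h3 : (P.b m : ℚ) - P.el (2 ^ k) m u₁ S < 0 := by
        by_contra hc
        exact absurd h1 (not_lt.2 (mul_nonpos_of_nonpos_of_nonneg h2.le (not_lt.1 hc)))
      have h4 : (P.b i : ℚ) ≤ P.b m := by exact_mod_cast hm i (Finset.mem_univ i)
      linarith
  · intro s hs hsE
    rcases Finset.mem_union.1 hs with h | h
    · rw [Finset.mem_image] at h
      obtain ⟨t, ht, rfl⟩ := h
      rw [mem_Tt] at ht
      exact ⟨t.1, B.near' hk0 hW t.1 ht.1.1 t.2.2⟩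
    · exact absurd h hsE

end Pool.Agent.D0H5.CGX
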