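import Pool.Agent.D0H5.CGX.Asm

/-!
# Split polynomials with equal values at prescribed points, in all large degrees
-/

set_option autoImplicit false

namespace Pool.Agent.D0H5.CGX

open Finset Polynomial Pool.Agent.W460.CG Pool.Agent.W289.CG

variable {k : ℕ}

/-- a good set: `n` elements, equal positive values at the points, simple roots of `A - v`, an
element larger than all points -/
structure Good (b : Fin k → ℤ) (S : Finset ℚ) (v : ℚ) : Prop where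
  pos : 0 < v
  val : ∀ i, (PS S).eval (b i : ℚ) = v
  der : ∀ i, (derivative (PS S)).eval (b i : ℚ) ≠ 0
  gt : ∀ i, ∃ s ∈ S, (b i : ℚ) < s

theorem core (hk : 2 ≤ k) (P : Par k) (A : ℕ) : ∃ p α₀ : ℕ, 0 < p ∧
    ∀ (E : Finset ℚ) (x : Fin k → ℤ) (D : ℚ), Ext P (2 ^ k) E x D → E.card ≤ A →
      ∀ α : ℕ, α₀ ≤ α → ∃ q₀ : ℕ, ∀ q : ℕ, q₀ ≤ q → Even (p * q + α) →
        ∃ (S : Finset ℚ) (v : ℚ), E ⊆ S ∧ S.card = k * (p * q + α) + E.card ∧ Good P.b S v ∧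
          ∀ s ∈ S, s ∉ E → ∃ i, |(P.b i : ℚ) - s| ≤ 1 / 2 := by
  classical
  obtain ⟨X, hX0, hXc, hXs⟩ := exists_X P
  have hk0 : 0 < k := by omega
  have hW : (0 : ℤ) < 2 ^ k := by positivity
  set T : ℕ := 2 * k + A + 2 with hT
  set Φ : ℕ := Fintype.card (Fin k × Finset (Fin k)) with hΦ
  let u₀ : ℤ := X + 2 * (1 + 2 ^ k) ^ Φ + ∑ j, (T : ℤ) * |P.ka j| * 2 ^ k
  have h1 : (0 : ℤ) < 2 * (1 + 2 ^ k) ^ Φ := by positivity
  have h2 : ∀ j, (T : ℤ) * |P.ka j| * 2 ^ k ≤ ∑ j, (T : ℤ) * |P.ka j| * 2 ^ k := fun j =>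
    Finset.single_le_sum (f := fun j => (T : ℤ) * |P.ka j| * 2 ^ k) (fun _ _ => by positivity)
      (Finset.mem_univ j)
  have h3 : (0 : ℤ) ≤ ∑ j, (T : ℤ) * |P.ka j| * 2 ^ k := Finset.sum_nonneg fun _ _ => by positivity
  have B : Bds P X u₀ T := by
    refine ⟨hX0, hXc, hXs, by omega, fun j => ?_⟩
    have := h2 j
    change _ ≤ X + 2 * (1 + 2 ^ k) ^ Φ + ∑ j, (T : ℤ) * |P.ka j| * 2 ^ k - X
    omega
  have hX : 2 * (1 + (2 : ℤ) ^ k) ^ Φ ≤ u₀ - X := by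
    change _ ≤ X + 2 * (1 + 2 ^ k) ^ Φ + ∑ j, (T : ℤ) * |P.ka j| * 2 ^ k - X
    omega
  have hPd : 0 < Pd (2 ^ k) u₀ X := Pd_pos hW (B.uX hk0)
  let L : ℕ := ((1 + 2 ^ k) * Pd (2 ^ k) u₀ X).toNat
  have hL0 : 0 < (1 + (2 : ℤ) ^ k) * Pd (2 ^ k) u₀ X := mul_pos (by positivity) hPd
  have hLe : (L : ℤ) = (1 + 2 ^ k) * Pd (2 ^ k) u₀ X := Int.toNat_of_nonneg hL0.le
  have hL : 0 < L := by omega
  refine ⟨L * (evs k).card, 1 + ∑ i, (Tr P X i).card, Nat.mul_pos hL (evs_pos hk), ?_⟩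
  intro E x D hE hEA α hα
  have hα' : ∀ i, (Tr P X i).card < α := by
    intro i
    have := Finset.single_le_sum (f := fun i => (Tr P X i).card) (fun _ _ => Nat.zero_le _)
      (Finset.mem_univ i)
    have h' : (Tr P X i).card ≤ ∑ i, (Tr P X i).card := this
    omega
  obtain ⟨q₀, hq₀⟩ := exists_sets P (2 ^ k) X u₀ hW hX0 hX x hE.pos hE.mod α hα'
  refine ⟨q₀.toNat, fun q hq hev => ?_⟩
  obtain ⟨hq0, M, c, hc0, hM1, hM2, hM3⟩ := hq₀ q (by omega)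
  set u₁ : ℤ := u₀ + (1 + 2 ^ k) * (q : ℤ) * Pd (2 ^ k) u₀ X with hu₁
  have hcard : (Ioc u₀ u₁).card = L * q := by
    rw [Int.card_Ioc]
    have h4 : u₁ - u₀ = ((L * q : ℕ) : ℤ) := by
      push_cast
      rw [hLe, hu₁]
      ring
    rw [h4, Int.toNat_natCast]
  have h01 : u₀ < u₁ := by
    have h5 : 0 < (1 + (2 : ℤ) ^ k) * (q : ℤ) * Pd (2 ^ k) u₀ X := by positivity
    omega
  have hct : (Ioc u₀ u₁).card * (evs k).card + α = L * (evs k).card * q + α := by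
    rw [hcard]
    ring
  obtain ⟨S, v, g1, g2, g3, g4, g5, g6, g7⟩ := set_of hk P X u₀ u₁ T B M α h01 hM1 hM2
    (by rw [hct]; exact hev) c hc0 E x D hE (by omega) hM3
  refine ⟨S, v, g1, ?_, ⟨g3, g4, g5, g6⟩, g7⟩
  rw [g2, hct]

/-- additional elements -/
lemma exists_ext (P : Par k) (a : ℕ) : ∃ (E : Finset ℚ) (x : Fin k → ℤ) (D : ℚ),
    E.card = a ∧ Ext P (2 ^ k) E x D := by
  classical
  obtain ⟨β, hβ⟩ : ∃ β : ℤ, ∀ i, β ≤ P.b i - 1 := by
    obtain ⟨A, hA⟩ := (Set.finite_range P.b).bddBelow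
    exact ⟨A - 1, fun i => by have := hA ⟨i, rfl⟩; omega⟩
  have hW : (0 : ℤ) < 2 ^ k := by positivity
  have hWQ : (0 : ℚ) < 2 ^ k := by positivity
  let f : ℕ → ℚ := fun y => β - 1 / (2 ^ k * (y + 1))
  have hf : Function.Injective f := by
    intro y z h
    have h1 : (1 : ℚ) / (2 ^ k * (y + 1)) = 1 / (2 ^ k * (z + 1)) := by
      change (β : ℚ) - 1 / (2 ^ k * (y + 1)) = β - 1 / (2 ^ k * (z + 1)) at h
      linarith
    rw [div_eq_div_iff (by positivity) (by positivity)] at h1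
    have h2 : (y : ℚ) = z := by
      apply mul_left_cancel₀ hWQ.ne'
      linarith
    exact_mod_cast h2
  refine ⟨(range a).image f, fun i => ∏ y ∈ range a, rho (2 ^ k) ((P.b i - β) * (y + 1)),
    ∏ y ∈ range a, ((2 : ℚ) ^ k * (y + 1)), ?_, ?_, ?_, ?_, ?_, ?_⟩
  · rw [Finset.card_image_of_injective _ hf, Finset.card_range]
  · intro i
    have : 0 < ∏ y ∈ range a, rho (2 ^ k) ((P.b i - β) * (y + 1)) := by
      apply Finset.prod_pos
      intro y _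
      apply rho_pos hW
      have := hβ i
      exact mul_nonneg (by omega) (by omega)
    omega
  · intro i
    have h1 : ∏ y ∈ range a, rho (2 ^ k) ((P.b i - β) * (y + 1)) ≡ ∏ _y ∈ range a, (1 : ℤ)
        [ZMOD 2 ^ k] := by
      apply Int.ModEq.prod
      intro y _
      unfold rho
      exact (Int.modEq_iff_dvd.2 ⟨- ((P.b i - β) * (y + 1)), by ring⟩)
    rw [Finset.prod_const_one] at h1
    have h2 := (Int.modEq_iff_dvd.1 h1)
    rw [← dvd_neg] at h2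
    have h3 : -(1 - ∏ y ∈ range a, rho (2 ^ k) ((P.b i - β) * (y + 1))) =
        ∏ y ∈ range a, rho (2 ^ k) ((P.b i - β) * (y + 1)) - 1 := by ring
    rwa [h3] at h2
  · exact Finset.prod_pos fun y _ => by positivity
  · intro i
    rw [Finset.prod_image fun y _ z _ h => hf h]
    push_cast
    rw [← Finset.prod_div_distrib]
    apply Finset.prod_congr rfl
    intro y _
    change (P.b i : ℚ) - (β - 1 / (2 ^ k * (y + 1))) = _
    unfold rho
    push_cast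
    field_simp
    ring
  · intro e he i
    rw [Finset.mem_image] at he
    obtain ⟨y, -, rfl⟩ := he
    have h1 : (β : ℚ) ≤ P.b i - 1 := by exact_mod_cast hβ i
    have h2 : (0 : ℚ) < 1 / (2 ^ k * (y + 1)) := by positivity
    change (β : ℚ) - 1 / (2 ^ k * (y + 1)) ≤ _
    linarith

/-- For every finite set of integers and every large `n` there is a set of `n` rational numbers `s`
such that the polynomial `∏ (X - s)` takes the same positive value at all these integers. -/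
theorem exists_good (hk : 2 ≤ k) (b : Fin k → ℤ) (hb : Function.Injective b) :
    ∃ n₀ : ℕ, ∀ n : ℕ, n₀ ≤ n → ∃ (S : Finset ℚ) (v : ℚ), S.card = n ∧ Good b S v := by
  classical
  obtain ⟨P, rfl⟩ := exists_par b hb
  obtain ⟨p, α₀, hp, hcore⟩ := core hk P (2 * k)
  choose E x D hEc hE using exists_ext P
  have hq : ∀ α a : ℕ, α₀ ≤ α → a < 2 * k → ∃ q₀ : ℕ, ∀ q : ℕ, q₀ ≤ q → Even (p * q + α) →
      ∃ (S : Finset ℚ) (v : ℚ), S.card = k * (p * q + α) + a ∧ Good P.b S v := by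
    intro α a hα ha
    obtain ⟨q₀, hq₀⟩ := hcore (E a) (x a) (D a) (hE a) (by rw [hEc]; omega) α hα
    refine ⟨q₀, fun q hq hev => ?_⟩
    obtain ⟨S, v, -, h2, h3, -⟩ := hq₀ q hq hev
    exact ⟨S, v, by rw [h2, hEc], h3⟩
  choose q₀ hq₀ using hq
  let Q : ℕ := ∑ α ∈ range (α₀ + p), ∑ a ∈ range (2 * k),
    if h : α₀ ≤ α ∧ a < 2 * k then q₀ α a h.1 h.2 else 0
  have hQ : ∀ α a (h1 : α₀ ≤ α) (h2 : a < 2 * k), α < α₀ + p → q₀ α a h1 h2 ≤ Q := by
    intro α a h1 h2 h3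
    have h4 : q₀ α a h1 h2 = if h : α₀ ≤ α ∧ a < 2 * k then q₀ α a h.1 h.2 else 0 := by
      rw [dif_pos ⟨h1, h2⟩]
    rw [h4]
    refine le_trans (Finset.single_le_sum
      (f := fun a => if h : α₀ ≤ α ∧ a < 2 * k then q₀ α a h.1 h.2 else 0)
      (fun _ _ => Nat.zero_le _) (Finset.mem_range.2 h2)) ?_
    exact Finset.single_le_sum (f := fun α => ∑ a ∈ range (2 * k),
      if h : α₀ ≤ α ∧ a < 2 * k then q₀ α a h.1 h.2 else 0)
      (fun _ _ => Nat.zero_le _) (Finset.mem_range.2 h3)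
  refine ⟨2 * k * (α₀ + p * Q + 1), fun n hn => ?_⟩
  have hk2 : 0 < 2 * k := by omega
  set t : ℕ := n / (2 * k) with ht
  have ht1 : α₀ + p * Q + 1 ≤ t := by
    rw [ht, Nat.le_div_iff_mul_le hk2]
    rw [mul_comm]
    exact hn
  have ha : n % (2 * k) < 2 * k := Nat.mod_lt _ hk2
  have hn' : 2 * k * t + n % (2 * k) = n := Nat.div_add_mod n (2 * k)
  set z : ℕ := 2 * t - α₀ with hz
  have hzq : Q ≤ z / p := by
    rw [Nat.le_div_iff_mul_le hp, mul_comm]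
    omega
  have hmod : z % p < p := Nat.mod_lt _ hp
  have hdm : p * (z / p) + z % p = z := Nat.div_add_mod z p
  have hsum : p * (z / p) + (α₀ + z % p) = 2 * t := by omega
  obtain ⟨S, v, h1, h2⟩ := hq₀ (α₀ + z % p) (n % (2 * k)) (by omega) ha (z / p)
    ((hQ _ _ _ _ (by omega)).trans hzq) (by rw [hsum]; exact even_two_mul t)
  refine ⟨S, v, ?_, h2⟩
  rw [h1, hsum]
  have : k * (2 * t) = 2 * k * t := by ring
  rw [this]
  exact hn'

theorem exists_dat (k : ℕ) (hk : 2 ≤ k) : ∃ n₀ : ℕ, ∀ n : ℕ, n₀ ≤ n → Nonempty (Dat n k) := by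
  have hb : Function.Injective (fun j : Fin k => ((j : ℕ) : ℤ)) := by
    intro i j h
    have h' : ((i : ℕ) : ℤ) = ((j : ℕ) : ℤ) := h
    exact Fin.ext (by exact_mod_cast h')
  obtain ⟨n₀, hn₀⟩ := exists_good hk (fun j : Fin k => ((j : ℕ) : ℤ)) hb
  refine ⟨n₀, fun n hn => ?_⟩
  obtain ⟨S, v, h1, h2⟩ := hn₀ n hn
  obtain ⟨D, -⟩ := of_set ⟨0, by omega⟩ (fun j : Fin k => ((j : ℕ) : ℤ)) hb S v h1 h2.pos h2.val
    h2.der h2.gt
  exact ⟨D⟩

end Pool.Agent.D0H5.CGX
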