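import Pool.Agent.D0H5.CGX.Sets
import Pool.Agent.W460.CG.Gen

/-!
# The elements are near the points
-/

set_option autoImplicit false

namespace Pool.Agent.D0H5.CGX

open Finset Polynomial Pool.Agent.W460.CG

variable {k : ℕ}

/-- the bounds for the parameters -/
structure Bds (P : Par k) (X u₀ : ℤ) (T : ℕ) : Prop where
  X0 : 0 ≤ X
  cc : ∀ i j S, - X ≤ P.cc i j S ∧ P.cc i j S ≤ X
  sg : ∀ j S, - X ≤ P.sg j S
  T2 : 2 ≤ T
  big : ∀ j, (T : ℤ) * |P.ka j| * 2 ^ k ≤ u₀ - X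

lemma Bds.uX {P : Par k} {X u₀ : ℤ} {T : ℕ} (B : Bds P X u₀ T) (hk : 0 < k) : 0 ≤ u₀ - X := by
  have h1 := B.big ⟨0, hk⟩
  have h2 : (0 : ℤ) ≤ (T : ℤ) * |P.ka ⟨0, hk⟩| * 2 ^ k := by positivity
  omega

section

variable {P : Par k} {W X u₀ : ℤ} {T : ℕ}

lemma ka_ne (P : Par k) (j : Fin k) : P.ka j ≠ 0 := by
  intro h
  have h1 := P.hka j
  rw [h, zero_mul] at h1
  have := P.hC
  omega

lemma Bds.rpos (B : Bds P X u₀ T) (hk : 0 < k) (hW : 0 < W) (j : Fin k) {u : ℤ} (hu : u₀ < u)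
    (S : Finset (Fin k)) : 0 < rho W (u + P.sg j S) := by
  have h1 := B.sg j S
  have h2 := B.uX hk
  exact rho_pos hW (by omega)

lemma Bds.rbig (B : Bds P X u₀ T) (hk : 0 < k) (hW : 0 < W) (j : Fin k) {u : ℤ} (hu : u₀ < u)
    (S : Finset (Fin k)) : (T : ℤ) * (|P.ka j| * W * Nn S) ≤ rho W (u + P.sg j S) := by
  have h1 := B.sg j S
  have h2 := B.uX hk
  have h3 := B.big j
  have h4 : (Nn S : ℤ) ≤ 2 ^ k := by exact_mod_cast (Nn_lt S).le
  have h5 : (T : ℤ) * |P.ka j| * Nn S ≤ (T : ℤ) * |P.ka j| * 2 ^ k :=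
    mul_le_mul_of_nonneg_left h4 (by positivity)
  have h6 : W * ((T : ℤ) * |P.ka j| * Nn S) ≤ W * (u + P.sg j S) :=
    mul_le_mul_of_nonneg_left (by omega) hW.le
  unfold rho
  have h7 : (T : ℤ) * (|P.ka j| * W * Nn S) = W * ((T : ℤ) * |P.ka j| * Nn S) := by ring
  rw [h7]
  linarith

lemma Bds.near (B : Bds P X u₀ T) (hk : 0 < k) (hW : 0 < W) (j : Fin k) {u : ℤ} (hu : u₀ < u)
    (S : Finset (Fin k)) : (T : ℚ) * |(P.b j : ℚ) - P.el W j u S| ≤ 1 := by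
  have h1 : (0 : ℚ) < rho W (u + P.sg j S) := by exact_mod_cast B.rpos hk hW j hu S
  have h2 := B.rbig hk hW j hu S
  have h3 : (T : ℚ) * (|(P.ka j : ℚ)| * W * Nn S) ≤ rho W (u + P.sg j S) := by exact_mod_cast h2
  have hWQ : (0 : ℚ) < W := by exact_mod_cast hW
  rw [P.sub_el_self, abs_div, abs_mul, abs_mul, abs_of_pos h1, abs_of_pos hWQ,
    abs_of_nonneg (by positivity : (0 : ℚ) ≤ (Nn S : ℚ)), ← mul_div_assoc, div_le_one h1]
  exact h3

lemma Bds.near' (B : Bds P X u₀ T) (hk : 0 < k) (hW : 0 < W) (j : Fin k) {u : ℤ} (hu : u₀ < u)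
    (S : Finset (Fin k)) : |(P.b j : ℚ) - P.el W j u S| ≤ 1 / 2 := by
  have h1 := B.near hk hW j hu S
  have h2 : (2 : ℚ) ≤ T := by exact_mod_cast B.T2
  have h3 : 2 * |(P.b j : ℚ) - P.el W j u S| ≤ (T : ℚ) * |(P.b j : ℚ) - P.el W j u S| :=
    mul_le_mul_of_nonneg_right h2 (abs_nonneg _)
  linarith

lemma Bds.sub_pos (B : Bds P X u₀ T) (hk : 0 < k) (hW : 0 < W) (j : Fin k) {u : ℤ} (hu : u₀ < u)
    {S : Finset (Fin k)} (hS : S.Nonempty) :
    0 < (P.ka j : ℚ) * ((P.b j : ℚ) - P.el W j u S) := by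
  have h1 : (0 : ℚ) < rho W (u + P.sg j S) := by exact_mod_cast B.rpos hk hW j hu S
  have hWQ : (0 : ℚ) < W := by exact_mod_cast hW
  have hN : (0 : ℚ) < Nn S := by exact_mod_cast Nn_pos hS
  have hka : (P.ka j : ℚ) ≠ 0 := by exact_mod_cast ka_ne P j
  rw [P.sub_el_self]
  have : (P.ka j : ℚ) * (P.ka j * W * Nn S / rho W (u + P.sg j S)) =
      (P.ka j : ℚ) ^ 2 * (W * Nn S / rho W (u + P.sg j S)) := by ring
  rw [this]
  positivity

lemma Bds.inv_self (B : Bds P X u₀ T) (hk : 0 < k) (hW : 0 < W) (j : Fin k) {u : ℤ} (hu : u₀ < u)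
    {S : Finset (Fin k)} (hS : S.Nonempty) :
    (T : ℚ) ≤ (SignType.sign (P.ka j) : ℤ) * (1 / ((P.b j : ℚ) - P.el W j u S)) := by
  have h1 := B.near hk hW j hu S
  have h2 := B.sub_pos hk hW j hu hS
  set d : ℚ := (P.b j : ℚ) - P.el W j u S with hd
  rcases lt_or_gt_of_ne (ka_ne P j) with h | h
  · rw [sign_neg h]
    have h' : (P.ka j : ℚ) < 0 := by exact_mod_cast h
    have hd0 : d < 0 := by
      by_contra hc
      exact absurd h2 (not_lt.2 (mul_nonpos_of_nonpos_of_nonneg h'.le (not_lt.1 hc)))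
    rw [abs_of_neg hd0] at h1
    have h4 : 0 < - d := by linarith
    have h3 : ((SignType.cast (-1 : SignType) : ℤ) : ℚ) * (1 / d) = 1 / (- d) := by
      have : ((SignType.cast (-1 : SignType) : ℤ) : ℚ) = -1 := by simp
      rw [this]
      field_simp
    rw [h3, le_div_iff₀ h4]
    exact h1
  · rw [sign_pos h]
    have h' : (0 : ℚ) < P.ka j := by exact_mod_cast h
    have hd0 : 0 < d := by
      by_contra hc
      exact absurd h2 (not_lt.2 (mul_nonpos_of_nonneg_of_nonpos h'.le (not_lt.1 hc)))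
    rw [abs_of_pos hd0] at h1
    have h3 : ((SignType.cast (1 : SignType) : ℤ) : ℚ) * (1 / d) = 1 / d := by simp
    rw [h3, le_div_iff₀ hd0]
    exact h1

lemma sgn_bound (P : Par k) (j : Fin k) (x : ℚ) : - |x| ≤ (SignType.sign (P.ka j) : ℤ) * x := by
  rcases lt_or_gt_of_ne (ka_ne P j) with h | h
  · rw [sign_neg h]
    have : ((SignType.cast (-1 : SignType) : ℤ) : ℚ) = -1 := by simp
    rw [this]
    have := le_abs_self x
    linarith
  · rw [sign_pos h]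
    have : ((SignType.cast (1 : SignType) : ℤ) : ℚ) = 1 := by simp
    rw [this]
    have := neg_abs_le x
    linarith

lemma b_dist (P : Par k) {i j : Fin k} (hij : i ≠ j) : (1 : ℚ) ≤ |(P.b i : ℚ) - P.b j| := by
  have h1 : P.b i - P.b j ≠ 0 := fun h => hij (P.hb (by omega))
  have h2 : 1 ≤ |P.b i - P.b j| := Int.one_le_abs h1
  exact_mod_cast h2

lemma Bds.far (B : Bds P X u₀ T) (hk : 0 < k) (hW : 0 < W) {i j : Fin k} (hij : i ≠ j) {u : ℤ}
    (hu : u₀ < u) (S : Finset (Fin k)) : (1 : ℚ) / 2 ≤ |(P.b i : ℚ) - P.el W j u S| := by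
  have h1 := B.near' hk hW j hu S
  have h2 := b_dist P hij
  have h3 : |(P.b i : ℚ) - P.b j| ≤ |(P.b i : ℚ) - P.el W j u S| + |(P.b j : ℚ) - P.el W j u S| := by
    have h4 : (P.b i : ℚ) - P.b j = ((P.b i : ℚ) - P.el W j u S) - ((P.b j : ℚ) - P.el W j u S) := by
      ring
    rw [h4]
    exact abs_sub _ _
  linarith

lemma Bds.inv_far (B : Bds P X u₀ T) (hk : 0 < k) (hW : 0 < W) {i j : Fin k} (hij : i ≠ j) {u : ℤ}
    (hu : u₀ < u) (S : Finset (Fin k)) :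
    - 2 ≤ (SignType.sign (P.ka i) : ℤ) * (1 / ((P.b i : ℚ) - P.el W j u S)) := by
  have h1 := B.far hk hW hij hu S
  have h2 := sgn_bound P i (1 / ((P.b i : ℚ) - P.el W j u S))
  have h3 : |1 / ((P.b i : ℚ) - P.el W j u S)| ≤ 2 := by
    rw [abs_div, abs_one, div_le_iff₀ (by linarith)]
    linarith
  linarith

lemma Bds.inj (B : Bds P X u₀ T) (hk : 0 < k) {i j : Fin k} {u v : ℤ} (hu : u₀ < u) (hv : u₀ < v)
    {S S' : Finset (Fin k)} (hS : S.Nonempty)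
    (h : P.el (2 ^ k) i u S = P.el (2 ^ k) j v S') : i = j ∧ u = v ∧ S = S' := by
  have hW : (0 : ℤ) < 2 ^ k := by positivity
  have hij : i = j := by
    by_contra hij
    have h1 := B.near' hk hW i hu S
    have h2 := B.near' hk hW j hv S'
    have h3 := b_dist P hij
    have hk0 : S.Nonempty := hS
    have h5 := B.sub_pos hk hW i hu hS
    have h6 := B.near hk hW i hu S
    rw [← h] at h2
    have h4 : |(P.b i : ℚ) - P.b j| ≤ |(P.b i : ℚ) - P.el (2 ^ k) i u S| +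
        |(P.b j : ℚ) - P.el (2 ^ k) i u S| := by
      have h4 : (P.b i : ℚ) - P.b j = ((P.b i : ℚ) - P.el (2 ^ k) i u S) -
        ((P.b j : ℚ) - P.el (2 ^ k) i u S) := by ring
      rw [h4]
      exact abs_sub _ _
    -- both distances are `1 / 2`, the point in the middle is not an element
    have h7 : |(P.b i : ℚ) - P.el (2 ^ k) i u S| = 1 / 2 := by linarith
    rw [P.sub_el_self] at h7
    have hr : (0 : ℚ) < rho (2 ^ k) (u + P.sg i S) := by exact_mod_cast B.rpos hk hW i hu S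
    rw [abs_div, abs_of_pos hr, div_eq_iff hr.ne'] at h7
    have h8 : |(P.ka i : ℚ) * ((2 ^ k : ℤ) : ℚ) * Nn S| =
        ((|P.ka i * 2 ^ k * Nn S| : ℤ) : ℚ) := by push_cast; rfl
    rw [h8] at h7
    have h9 : 2 * |P.ka i * 2 ^ k * Nn S| = rho (2 ^ k) (u + P.sg i S) := by
      have : (2 : ℚ) * ((|P.ka i * 2 ^ k * Nn S| : ℤ) : ℚ) = rho (2 ^ k) (u + P.sg i S) := by
        rw [h7]; ring
      exact_mod_cast this
    have h10 : (2 : ℤ) ∣ 1 := by
      have h11 : (1 : ℤ) = rho (2 ^ k) (u + P.sg i S) - 2 ^ k * (u + P.sg i S) := by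
        unfold rho; ring
      have h12 : (2 : ℤ) ∣ 2 ^ k := dvd_pow_self 2 (by omega)
      have h13 := dvd_sub (Dvd.intro _ h9) (h12.mul_right (u + P.sg i S))
      rwa [← h11] at h13
    norm_num at h10
  subst hij
  have hr1 := B.rpos hk hW i hu S
  have hr2 := B.rpos hk hW i hv S'
  have hr1' : (rho (2 ^ k) (u + P.sg i S) : ℚ) ≠ 0 := by exact_mod_cast hr1.ne'
  have hr2' : (rho (2 ^ k) (v + P.sg i S') : ℚ) ≠ 0 := by exact_mod_cast hr2.ne'
  have hka : (P.ka i : ℚ) ≠ 0 := by exact_mod_cast ka_ne P i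
  have hWQ : (((2 ^ k : ℤ)) : ℚ) ≠ 0 := by exact_mod_cast hW.ne'
  unfold Par.el at h
  have h1 : (P.ka i : ℚ) * ((2 ^ k : ℤ) : ℚ) * Nn S / rho (2 ^ k) (u + P.sg i S) =
      (P.ka i : ℚ) * ((2 ^ k : ℤ) : ℚ) * Nn S' / rho (2 ^ k) (v + P.sg i S') := by linarith
  rw [div_eq_div_iff hr1' hr2'] at h1
  have h2 : (Nn S : ℚ) * rho (2 ^ k) (v + P.sg i S') = Nn S' * rho (2 ^ k) (u + P.sg i S) := by
    apply mul_left_cancel₀ (mul_ne_zero hka hWQ)
    linarith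
  have h3 : (Nn S : ℤ) * rho (2 ^ k) (v + P.sg i S') = Nn S' * rho (2 ^ k) (u + P.sg i S) := by
    exact_mod_cast h2
  have h4 : (Nn S : ℤ) = Nn S' := by
    have h5 : (2 ^ k : ℤ) ∣ (Nn S : ℤ) - Nn S' := by
      refine ⟨Nn S' * (u + P.sg i S) - Nn S * (v + P.sg i S'), ?_⟩
      unfold rho at h3
      linear_combination h3
    have h6 : ((Nn S : ℤ)) < 2 ^ k := by exact_mod_cast Nn_lt S
    have h7 : ((Nn S' : ℤ)) < 2 ^ k := by exact_mod_cast Nn_lt S'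
    have h8 : (0 : ℤ) ≤ Nn S := by positivity
    have h9 : (0 : ℤ) ≤ Nn S' := by positivity
    have h10 : |(Nn S : ℤ) - Nn S'| < 2 ^ k := by
      rw [abs_lt]
      constructor <;> linarith
    have h11 := Int.eq_zero_of_abs_lt_dvd h5 h10
    omega
  have hSS : S = S' := Nn_inj (by exact_mod_cast h4)
  subst hSS
  have hN : (Nn S : ℤ) ≠ 0 := by
    have := Nn_pos hS
    omega
  have h5 := rho_inj hW (mul_left_cancel₀ hN h3)
  exact ⟨rfl, by omega, rfl⟩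

end

end Pool.Agent.D0H5.CGX
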