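import Mathlib

/-!
# The parameters and the signed cubes

`b` are the points, `ka j * ∏ (b j - b i) = C < 0` for all `j`, `xi i j = ka j / (b i - b j)`.
-/

set_option autoImplicit false

namespace Pool.Agent.D0H5.CGX

open Finset

/-- the parameters -/
structure Par (k : ℕ) where
  b : Fin k → ℤ
  ka : Fin k → ℤ
  xi : Fin k → Fin k → ℤ
  C : ℤ
  hb : Function.Injective b
  hC : C < 0
  hxi : ∀ i j, i ≠ j → ka j = xi i j * (b i - b j)
  hxj : ∀ j, xi j j = 0
  hka : ∀ j, ka j * ∏ i ∈ univ.erase j, (b j - b i) = C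

theorem exists_par {k : ℕ} (b : Fin k → ℤ) (hb : Function.Injective b) :
    ∃ P : Par k, P.b = b := by
  classical
  let D : Fin k → ℤ := fun j => ∏ i ∈ univ.erase j, (b j - b i)
  have hD : ∀ j, D j ≠ 0 := by
    intro j
    apply Finset.prod_ne_zero_iff.2
    intro i hi h
    rw [Finset.mem_erase] at hi
    exact hi.1 (hb (by linarith [sub_eq_zero.1 h])).symm.symm
  let Q : ℤ := ∏ j, D j
  have hQ : Q ≠ 0 := Finset.prod_ne_zero_iff.2 fun j _ => hD j
  let ka : Fin k → ℤ := fun j => - Q * ∏ l ∈ univ.erase j, D l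
  have h1 : ∀ i j, i ≠ j → (b i - b j) ∣ ka j := by
    intro i j hij
    apply Dvd.dvd.mul_right
    rw [dvd_neg]
    apply dvd_trans _ (Finset.dvd_prod_of_mem D (Finset.mem_univ i))
    exact Finset.dvd_prod_of_mem (fun l => b i - b l)
      (Finset.mem_erase.2 ⟨hij.symm, Finset.mem_univ j⟩)
  refine ⟨{ b := b, ka := ka, xi := fun i j => if i = j then 0 else ka j / (b i - b j),
            C := - Q * Q, hb := hb, hC := ?_, hxi := ?_, hxj := ?_, hka := ?_ }, rfl⟩
  · have : 0 < Q * Q := mul_self_pos.2 hQ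
    linarith
  · intro i j hij
    change ka j = (if i = j then 0 else ka j / (b i - b j)) * (b i - b j)
    rw [if_neg hij, Int.ediv_mul_cancel (h1 i j hij)]
  · intro j
    simp
  · intro j
    change - Q * (∏ l ∈ univ.erase j, D l) * D j = - Q * Q
    rw [mul_assoc, Finset.prod_erase_mul _ _ (Finset.mem_univ j)]

variable {k : ℕ}

/-- the number with the binary digits `S` -/
def Nn (S : Finset (Fin k)) : ℕ := ∑ l ∈ S, 2 ^ (l : ℕ)

lemma Nn_eq (S : Finset (Fin k)) : Nn S = ∑ i ∈ S.map Fin.valEmbedding, 2 ^ i := by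
  rw [Finset.sum_map]
  rfl

lemma Nn_inj {S T : Finset (Fin k)} (h : Nn S = Nn T) : S = T := by
  rw [Nn_eq, Nn_eq] at h
  exact Finset.map_injective _ (Finset.geomSum_injective (le_refl 2) h)

lemma Nn_lt (S : Finset (Fin k)) : Nn S < 2 ^ k := by
  rw [Nn_eq]
  apply Nat.geomSum_lt (le_refl 2)
  intro i hi
  rw [Finset.mem_map] at hi
  obtain ⟨l, -, rfl⟩ := hi
  exact l.2

lemma Nn_pos {S : Finset (Fin k)} (h : S.Nonempty) : 0 < Nn S := by
  obtain ⟨l, hl⟩ := h
  exact lt_of_lt_of_le (by positivity) (Finset.single_le_sum (f := fun l : Fin k => 2 ^ (l : ℕ))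
    (fun _ _ => Nat.zero_le _) hl)

/-- the shift of the denominators -/
def Par.sg (P : Par k) (j : Fin k) (S : Finset (Fin k)) : ℤ := - ∑ l ∈ S, 2 ^ (l : ℕ) * P.xi l j

/-- the shift of the numerators -/
def Par.cc (P : Par k) (i j : Fin k) (S : Finset (Fin k)) : ℤ :=
  ∑ l ∈ S, 2 ^ (l : ℕ) * (P.xi i j - P.xi l j)

lemma Par.cc_eq (P : Par k) (i j : Fin k) (S : Finset (Fin k)) :
    P.cc i j S = P.sg j S + P.xi i j * Nn S := by
  unfold Par.cc Par.sg Nn
  push_cast
  rw [Finset.mul_sum, ← Finset.sum_neg_distrib, ← Finset.sum_add_distrib]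
  apply Finset.sum_congr rfl
  intro l _
  ring

/-- the numbers which are `1` modulo `W` -/
def rho (W x : ℤ) : ℤ := 1 + W * x

lemma rho_zero (W : ℤ) : rho W 0 = 1 := by simp [rho]

lemma rho_mono {W x y : ℤ} (hW : 0 < W) (h : x ≤ y) : rho W x ≤ rho W y := by
  unfold rho
  have := mul_le_mul_of_nonneg_left h hW.le
  linarith

lemma rho_lt {W x y : ℤ} (hW : 0 < W) (h : x < y) : rho W x < rho W y := by
  unfold rho
  have := mul_lt_mul_of_pos_left h hW
  linarith

lemma rho_inj {W x y : ℤ} (hW : 0 < W) (h : rho W x = rho W y) : x = y := by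
  unfold rho at h
  have : W * x = W * y := by linarith
  exact mul_left_cancel₀ hW.ne' this

lemma le_rho {W x : ℤ} (hW : 0 < W) (hx : 0 ≤ x) : x < rho W x := by
  unfold rho
  nlinarith

/-- the element -/
def Par.el (P : Par k) (W : ℤ) (j : Fin k) (u : ℤ) (S : Finset (Fin k)) : ℚ :=
  P.b j - P.ka j * W * Nn S / rho W (u + P.sg j S)

lemma Par.sub_el_self (P : Par k) (W : ℤ) (j : Fin k) (u : ℤ) (S : Finset (Fin k)) :
    (P.b j : ℚ) - P.el W j u S = P.ka j * W * Nn S / rho W (u + P.sg j S) := by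
  unfold Par.el
  ring

lemma Par.sub_el (P : Par k) (W : ℤ) {i j : Fin k} (hij : i ≠ j) (u : ℤ) (S : Finset (Fin k))
    (h : rho W (u + P.sg j S) ≠ 0) :
    (P.b i : ℚ) - P.el W j u S =
      (P.b i - P.b j) * rho W (u + P.cc i j S) / rho W (u + P.sg j S) := by
  unfold Par.el
  have h1 : (rho W (u + P.sg j S) : ℚ) ≠ 0 := by exact_mod_cast h
  have h2 : (rho W (u + P.cc i j S) : ℚ) = rho W (u + P.sg j S) + W * (P.xi i j * Nn S) := by
    rw [P.cc_eq]
    unfold rho
    push_cast
    ring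
  have h3 : (P.ka j : ℚ) = P.xi i j * (P.b i - P.b j) := by exact_mod_cast P.hxi i j hij
  rw [h2, h3]
  field_simp
  ring

/-- toggle an element -/
def tog (i : Fin k) (S : Finset (Fin k)) : Finset (Fin k) :=
  if i ∈ S then S.erase i else insert i S

lemma tog_tog (i : Fin k) (S : Finset (Fin k)) : tog i (tog i S) = S := by
  unfold tog
  by_cases h : i ∈ S
  · rw [if_pos h, if_neg (Finset.notMem_erase i S), Finset.insert_erase h]
  · rw [if_neg h, if_pos (Finset.mem_insert_self i S), Finset.erase_insert h]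

lemma tog_card (i : Fin k) (S : Finset (Fin k)) : Even (tog i S).card ↔ Odd S.card := by
  unfold tog
  by_cases h : i ∈ S
  · rw [if_pos h, Finset.card_erase_of_mem h]
    have := Finset.card_pos.2 ⟨i, h⟩
    rw [Nat.even_iff, Nat.odd_iff]
    omega
  · rw [if_neg h, Finset.card_insert_of_notMem h]
    rw [Nat.even_iff, Nat.odd_iff]
    omega

lemma tog_card' (i : Fin k) (S : Finset (Fin k)) : Odd (tog i S).card ↔ Even S.card := by
  rw [← tog_card i (tog i S), tog_tog]

lemma Par.cc_tog (P : Par k) (i j : Fin k) (S : Finset (Fin k)) :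
    P.cc i j (tog i S) = P.cc i j S := by
  unfold tog Par.cc
  by_cases h : i ∈ S
  · rw [if_pos h, ← Finset.add_sum_erase S _ h, sub_self, mul_zero, zero_add]
  · rw [if_neg h, Finset.sum_insert h, sub_self, mul_zero, zero_add]

/-- the nonempty sets with an even number of elements -/
def evs (k : ℕ) : Finset (Finset (Fin k)) := univ.filter fun S => S.Nonempty ∧ Even S.card

/-- the sets with an odd number of elements -/
def ods (k : ℕ) : Finset (Finset (Fin k)) := univ.filter fun S => Odd S.card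

lemma mem_evs {S : Finset (Fin k)} : S ∈ evs k ↔ S.Nonempty ∧ Even S.card := by
  simp [evs]

lemma mem_ods {S : Finset (Fin k)} : S ∈ ods k ↔ Odd S.card := by
  simp [ods]

lemma insert_evs : insert ∅ (evs k) = univ.filter fun S : Finset (Fin k) => Even S.card := by
  ext S
  rw [Finset.mem_insert, mem_evs, Finset.mem_filter]
  constructor
  · rintro (rfl | h)
    · simp
    · exact ⟨Finset.mem_univ _, h.2⟩
  · rintro ⟨-, h⟩
    rcases S.eq_empty_or_nonempty with h' | h'
    · exact Or.inl h'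
    · exact Or.inr ⟨h', h⟩

lemma empty_notMem_evs : (∅ : Finset (Fin k)) ∉ evs k := by
  rw [mem_evs]
  simp

lemma prod_ods {M : Type} [CommMonoid M] (i : Fin k) (f : Finset (Fin k) → M)
    (hf : ∀ S, f (tog i S) = f S) : ∏ S ∈ ods k, f S = f ∅ * ∏ S ∈ evs k, f S := by
  rw [← Finset.prod_insert empty_notMem_evs, insert_evs]
  refine Finset.prod_nbij' (tog i) (tog i) ?_ ?_ (fun S _ => tog_tog i S) (fun S _ => tog_tog i S)
    (fun S _ => (hf S).symm)
  · intro S hS
    rw [mem_ods] at hS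
    rw [Finset.mem_filter]
    exact ⟨Finset.mem_univ _, (tog_card i S).2 hS⟩
  · intro S hS
    rw [Finset.mem_filter] at hS
    rw [mem_ods]
    exact (tog_card' i S).2 hS.2

lemma card_ods (hk : 0 < k) : (ods k).card = (evs k).card + 1 := by
  have h := prod_ods (M := Multiplicative ℕ) (⟨0, hk⟩ : Fin k)
    (fun _ => Multiplicative.ofAdd 1) fun _ => rfl
  rw [Finset.prod_const, Finset.prod_const] at h
  have h2 := congrArg Multiplicative.toAdd h
  rw [toAdd_mul, toAdd_pow, toAdd_pow, toAdd_ofAdd, smul_eq_mul, smul_eq_mul] at h2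
  omega

lemma evs_pos (hk : 2 ≤ k) : 0 < (evs k).card := by
  rw [Finset.card_pos]
  refine ⟨{⟨0, by omega⟩, ⟨1, by omega⟩}, ?_⟩
  rw [mem_evs]
  refine ⟨Finset.insert_nonempty _ _, ?_⟩
  rw [Finset.card_insert_of_notMem, Finset.card_singleton]
  · exact even_two
  · rw [Finset.mem_singleton]
    intro h
    have := congrArg Fin.val h
    simp at this

lemma Par.odd_even (P : Par k) (W : ℤ) (i j : Fin k) (u : ℤ) :
    ∏ S ∈ ods k, (rho W (u + P.cc i j S) : ℚ) =
      rho W u * ∏ S ∈ evs k, (rho W (u + P.cc i j S) : ℚ) := by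
  rw [prod_ods i]
  · congr 1
    unfold Par.cc
    simp
  · intro S
    rw [P.cc_tog]

end Pool.Agent.D0H5.CGX
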