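import Pool.Agent.D0H5.CGX.Val

/-!
# The sets of the special blocks
-/

set_option autoImplicit false

namespace Pool.Agent.D0H5.CGX

open Finset

variable {k : ℕ}

/-- from values to indices -/
lemma conv {W u₀ u₁ : ℤ} (hW : 0 < W) (V : Finset ℤ)
    (hV : ∀ v ∈ V, W ∣ v - 1 ∧ rho W u₀ < v ∧ v ≤ rho W u₁) :
    ∃ M : Finset ℤ, M ⊆ Ioc u₀ u₁ ∧ M.card = V.card ∧ ∏ u ∈ M, rho W u = ∏ v ∈ V, v := by
  classical
  have h1 : ∀ v ∈ V, rho W ((v - 1) / W) = v := by
    intro v hv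
    unfold rho
    rw [Int.mul_ediv_cancel' (hV v hv).1]
    ring
  have hinj : Set.InjOn (fun v : ℤ => (v - 1) / W) (V : Set ℤ) := by
    intro v hv w hw h
    rw [← h1 v hv, ← h1 w hw]
    exact congrArg (rho W) h
  refine ⟨V.image fun v => (v - 1) / W, ?_, Finset.card_image_of_injOn hinj, ?_⟩
  · intro u hu
    rw [Finset.mem_image] at hu
    obtain ⟨v, hv, rfl⟩ := hu
    obtain ⟨-, h2, h3⟩ := hV v hv
    rw [← h1 v hv] at h2 h3
    rw [Finset.mem_Ioc]
    constructor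
    · by_contra h
      exact absurd (rho_mono hW (not_lt.1 h)) (not_le.2 h2)
    · by_contra h
      exact absurd (rho_lt hW (not_le.1 h)) (not_lt.2 h3)
  · rw [Finset.prod_image hinj]
    exact Finset.prod_congr rfl h1

/-- the product of the denominators at the lower end -/
noncomputable def Pd (W u₀ X : ℤ) : ℤ := ∏ y ∈ Ioc (- X) X, rho W (u₀ + y)

/-- the index of the quotient -/
noncomputable def kk (W u₀ X q y : ℤ) : ℤ :=
  (1 + W) * q * ∏ y' ∈ (Ioc (- X) X).erase y, rho W (u₀ + y')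

section

variable {W u₀ X q : ℤ}

lemma rho_pos (hW : 0 < W) {x : ℤ} (hx : 0 ≤ x) : 0 < rho W x := by
  have := le_rho hW hx
  omega

lemma Pd_pos (hW : 0 < W) (hX : 0 ≤ u₀ - X) : 0 < Pd W u₀ X := by
  apply Finset.prod_pos
  intro y hy
  rw [Finset.mem_Ioc] at hy
  exact rho_pos hW (by omega)

lemma pe_pos (hW : 0 < W) (hX : 0 ≤ u₀ - X) (y : ℤ) :
    0 < ∏ y' ∈ (Ioc (- X) X).erase y, rho W (u₀ + y') := by
  apply Finset.prod_pos
  intro y hy
  rw [Finset.mem_erase, Finset.mem_Ioc] at hy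
  exact rho_pos hW (by omega)

lemma kk_mul {y : ℤ} (hy : y ∈ Ioc (- X) X) :
    kk W u₀ X q y * rho W (u₀ + y) = (1 + W) * q * Pd W u₀ X := by
  unfold kk Pd
  rw [mul_assoc, Finset.prod_erase_mul _ _ hy]

lemma rho_kk {y : ℤ} (hy : y ∈ Ioc (- X) X) :
    rho W (kk W u₀ X q y) * rho W (u₀ + y) = rho W (u₀ + (1 + W) * q * Pd W u₀ X + y) := by
  have h := kk_mul (W := W) (u₀ := u₀) (q := q) hy
  have h1 : rho W (kk W u₀ X q y) * rho W (u₀ + y) =
      rho W (u₀ + y) + W * (kk W u₀ X q y * rho W (u₀ + y)) := by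
    have : rho W (kk W u₀ X q y) = 1 + W * kk W u₀ X q y := rfl
    rw [this]
    ring
  rw [h1, h]
  unfold rho
  ring

lemma Kq_eq (hW : 0 < W) (hX : 0 ≤ u₀ - X) {y : ℤ} (hy : y ∈ Ioc (- X) X) :
    Kq W u₀ (u₀ + (1 + W) * q * Pd W u₀ X) y = (rho W (kk W u₀ X q y) : ℚ) := by
  unfold Kq
  have h1 : 0 < rho W (u₀ + y) := rho_pos hW (by rw [Finset.mem_Ioc] at hy; omega)
  have h2 : (rho W (u₀ + y) : ℚ) ≠ 0 := by exact_mod_cast h1.ne'
  rw [div_eq_iff h2]
  exact_mod_cast (rho_kk hy).symm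

lemma kk_ge (hW : 0 < W) (hX : 0 ≤ u₀ - X) (hq : 0 < q) (y : ℤ) : q ≤ kk W u₀ X q y := by
  unfold kk
  have h1 := pe_pos hW hX y
  have h2 : q * 1 ≤ (1 + W) * q * ∏ y' ∈ (Ioc (- X) X).erase y, rho W (u₀ + y') := by
    apply mul_le_mul _ h1 (by norm_num) (by positivity)
    nlinarith
  linarith

lemma kk_inj (hW : 0 < W) (hX : 0 ≤ u₀ - X) (hq : 0 < q) {y y' : ℤ} (hy : y ∈ Ioc (- X) X)
    (hy' : y' ∈ Ioc (- X) X) (h : kk W u₀ X q y = kk W u₀ X q y') : y = y' := by
  have h1 := kk_mul (W := W) (u₀ := u₀) (q := q) hy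
  have h2 := kk_mul (W := W) (u₀ := u₀) (q := q) hy'
  rw [← h2, h] at h1
  have h3 : kk W u₀ X q y' ≠ 0 := by
    have := kk_ge hW hX hq y'
    omega
  have h4 := mul_left_cancel₀ h3 h1
  have h5 := rho_inj hW h4
  omega

lemma val_inj (hW : 0 < W) (hX : 0 ≤ u₀ - X) (hq : 0 < q) {y y' : ℤ} (hy : y ∈ Ioc (- X) X)
    (hy' : y' ∈ Ioc (- X) X) {a b : ℕ}
    (h : rho W (kk W u₀ X q y) * (1 + W) ^ a = rho W (kk W u₀ X q y') * (1 + W) ^ b) :
    a = b ∧ y = y' := by
  have hg : (1 + W) ≠ 0 := by omega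
  have key : ∀ (z z' : ℤ) (c d : ℕ), c < d →
      rho W (kk W u₀ X q z) * (1 + W) ^ c = rho W (kk W u₀ X q z') * (1 + W) ^ d → False := by
    intro z z' c d hcd h
    obtain ⟨e, rfl⟩ : ∃ e : ℕ, d = c + (e + 1) := ⟨d - c - 1, by omega⟩
    have h1 : rho W (kk W u₀ X q z) = rho W (kk W u₀ X q z') * (1 + W) ^ (e + 1) := by
      apply mul_right_cancel₀ (pow_ne_zero c hg)
      rw [h, pow_add]
      ring
    have h2 : (1 + W) ∣ rho W (kk W u₀ X q z) := by
      rw [h1, pow_succ, ← mul_assoc]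
      exact dvd_mul_left _ _
    have h3 : (1 + W) ∣ W * kk W u₀ X q z := by
      unfold kk
      exact Dvd.intro (W * (q * ∏ y' ∈ (Ioc (- X) X).erase z, rho W (u₀ + y'))) (by ring)
    have h4 : (1 + W) ∣ 1 := by
      have h5 : rho W (kk W u₀ X q z) - W * kk W u₀ X q z = 1 := by
        unfold rho
        ring
      have h6 := dvd_sub h2 h3
      rwa [h5] at h6
    have := Int.le_of_dvd one_pos h4
    omega
  rcases lt_trichotomy a b with h1 | h1 | h1
  · exact (key _ _ _ _ h1 h).elim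
  · subst h1
    refine ⟨rfl, ?_⟩
    have h2 := mul_right_cancel₀ (pow_ne_zero a hg) h
    exact kk_inj hW hX hq hy hy' (rho_inj hW h2)
  · exact (key _ _ _ _ h1 h.symm).elim

end

/-- a numbering of the pairs -/
noncomputable def ph (p : Fin k × Finset (Fin k)) : ℕ := Fintype.equivFin _ p

lemma ph_inj : Function.Injective (ph (k := k)) := by
  intro p q h
  unfold ph at h
  exact (Fintype.equivFin _).injective (Fin.val_injective h)

lemma ph_lt (p : Fin k × Finset (Fin k)) : ph p < Fintype.card (Fin k × Finset (Fin k)) :=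
  (Fintype.equivFin _ p).2

theorem exists_sets (P : Par k) (W X u₀ : ℤ) (hW : 0 < W) (hX0 : 0 ≤ X)
    (hX : 2 * (1 + W) ^ (Fintype.card (Fin k × Finset (Fin k))) ≤ u₀ - X)
    (x : Fin k → ℤ) (hx : ∀ i, 1 ≤ x i) (hxW : ∀ i, W ∣ x i - 1) (α : ℕ)
    (hα : ∀ i, (Tr P X i).card < α) :
    ∃ q₀ : ℤ, ∀ q : ℤ, q₀ ≤ q → 0 < q ∧ ∃ (M : Fin k → Finset ℤ) (c : ℚ), 0 < c ∧
      (∀ j, M j ⊆ Ioc u₀ (u₀ + (1 + W) * q * Pd W u₀ X)) ∧ (∀ j, (M j).card = α) ∧
      ∀ i, (∏ u ∈ M i, (rho W u : ℚ)) =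
        c * (∏ t ∈ Tr P X i, Kq W u₀ (u₀ + (1 + W) * q * Pd W u₀ X) t.2.2) * x i := by
  classical
  set g : ℤ := 1 + W with hg
  set Φ : ℕ := Fintype.card (Fin k × Finset (Fin k)) with hΦ
  have hg2 : 2 ≤ g := by omega
  have hgpos : ∀ n : ℕ, 0 < g ^ n := fun n => by positivity
  have hgmono : ∀ m n : ℕ, m ≤ n → g ^ m ≤ g ^ n := fun m n h =>
    pow_le_pow_right₀ (by omega) h
  have hglt : ∀ m n : ℕ, m < n → g ^ m < g ^ n := fun m n h =>
    pow_lt_pow_right₀ (by omega) h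
  have hX' : 0 ≤ u₀ - X := by
    have := hgpos Φ
    omega
  have hg1 : ∀ n : ℕ, W ∣ g ^ n - 1 := by
    intro n
    have : g - 1 ∣ g ^ n - 1 := by simpa using sub_dvd_pow_sub_pow g 1 n
    have h2 : g - 1 = W := by omega
    rwa [h2] at this
  obtain ⟨e₀, he₀⟩ : ∃ e₀ : ℕ, rho W u₀ < g ^ e₀ := by
    refine ⟨(rho W u₀).toNat, ?_⟩
    have h1 : 0 < rho W u₀ := rho_pos hW (by omega)
    have h2 : ((rho W u₀).toNat : ℤ) = rho W u₀ := Int.toNat_of_nonneg h1.le
    have h3 : (rho W u₀).toNat < 2 ^ (rho W u₀).toNat := Nat.lt_two_pow_self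
    have h4 : ((rho W u₀).toNat : ℤ) < 2 ^ (rho W u₀).toNat := by exact_mod_cast h3
    calc rho W u₀ = ((rho W u₀).toNat : ℤ) := h2.symm
      _ < 2 ^ (rho W u₀).toNat := h4
      _ ≤ g ^ (rho W u₀).toNat := pow_le_pow_left₀ (by norm_num) hg2 _
  -- the numbers of small elements
  let nn : Fin k → ℕ := fun i => α - 1 - (Tr P X i).card
  let AA : Fin k → ℕ := fun i =>
    ∑ t ∈ Tr P X i, ph (t.1, t.2.1) + ∑ e ∈ range (nn i), (e₀ + e)
  let E : ℕ := ∑ i, (AA i + e₀ + nn i)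
  have hE : ∀ i, AA i + e₀ + nn i ≤ E := fun i =>
    Finset.single_le_sum (f := fun i => AA i + e₀ + nn i) (fun _ _ => Nat.zero_le _)
      (Finset.mem_univ i)
  let la : Fin k → ℤ := fun i => x i * g ^ (E - AA i)
  have hla : ∀ i, g ^ (e₀ + nn i) ≤ la i := by
    intro i
    have h1 : g ^ (e₀ + nn i) ≤ g ^ (E - AA i) := hgmono _ _ (by have := hE i; omega)
    have h2 : 1 * g ^ (E - AA i) ≤ x i * g ^ (E - AA i) :=
      mul_le_mul_of_nonneg_right (hx i) (hgpos _).le
    change _ ≤ x i * g ^ (E - AA i)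
    linarith
  have hla0 : ∀ i, 0 < la i := fun i => lt_of_lt_of_le (hgpos _) (hla i)
  let Bd : ℤ := ∑ i, la i
  have hBd : ∀ i, la i ≤ Bd := fun i =>
    Finset.single_le_sum (f := la) (fun i _ => (hla0 i).le) (Finset.mem_univ i)
  refine ⟨|Bd| + 1, fun q hq => ?_⟩
  have hq0 : 0 < q := by
    have := abs_nonneg Bd
    omega
  have hqB : ∀ i, la i < q := by
    intro i
    have h1 := hBd i
    have h2 := le_abs_self Bd
    omega
  refine ⟨hq0, ?_⟩
  set u₁ : ℤ := u₀ + g * q * Pd W u₀ X with hu₁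
  have hPd := Pd_pos (X := X) hW hX'
  have hu₁q : q ≤ u₁ - u₀ := by
    have h1 : q * 1 ≤ g * q * Pd W u₀ X := by
      apply mul_le_mul _ hPd (by norm_num) (by positivity)
      nlinarith
    omega
  -- the values
  let v1 : Fin k × Finset (Fin k) × ℤ → ℤ := fun t =>
    rho W (kk W u₀ X q t.2.2) * g ^ ph (t.1, t.2.1)
  have hTr : ∀ i, ∀ t ∈ Tr P X i, t.2.2 ∈ Ioc (- X) X := by
    intro i t ht
    unfold Tr at ht
    rw [Finset.mem_filter, Finset.mem_product, Finset.mem_product] at ht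
    exact ht.1.2.2
  have hv1inj : ∀ i, Set.InjOn v1 (Tr P X i : Set (Fin k × Finset (Fin k) × ℤ)) := by
    intro i s hs t ht hst
    obtain ⟨h1, h2⟩ := val_inj hW hX' hq0 (hTr i s hs) (hTr i t ht) hst
    have h3 := ph_inj h1
    rw [Prod.mk.injEq] at h3
    exact Prod.ext h3.1 (Prod.ext h3.2 h2)
  have hKq : ∀ y, q < rho W (kk W u₀ X q y) := by
    intro y
    have h1 := kk_ge hW hX' hq0 y
    have h2 := le_rho hW (x := kk W u₀ X q y) (by omega)
    omega
  have hv1big : ∀ t, q < v1 t := by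
    intro t
    have h1 := hKq t.2.2
    have h2 : 1 ≤ g ^ ph (t.1, t.2.1) := hgpos _
    change q < rho W (kk W u₀ X q t.2.2) * g ^ ph (t.1, t.2.1)
    nlinarith
  have hv1small : ∀ i, ∀ t ∈ Tr P X i, v1 t ≤ rho W u₁ := by
    intro i t ht
    have hy := hTr i t ht
    have h1 := rho_kk (W := W) (u₀ := u₀) (q := q) hy
    rw [← hg, ← hu₁] at h1
    rw [Finset.mem_Ioc] at hy
    have h2 : rho W (u₁ + t.2.2) ≤ 2 * rho W u₁ := by
      have h3 : W * t.2.2 ≤ W * u₁ := mul_le_mul_of_nonneg_left (by omega) hW.le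
      unfold rho
      nlinarith
    have h4 : 2 * g ^ ph (t.1, t.2.1) ≤ rho W (u₀ + t.2.2) := by
      have h5 := hgmono _ _ (ph_lt (t.1, t.2.1)).le
      have h6 := le_rho hW (x := u₀ + t.2.2) (by omega)
      rw [← hΦ] at h5
      omega
    have h7 : 0 < rho W (kk W u₀ X q t.2.2) := by
      have := hKq t.2.2
      omega
    change rho W (kk W u₀ X q t.2.2) * g ^ ph (t.1, t.2.1) ≤ rho W u₁
    have h8 : rho W (kk W u₀ X q t.2.2) * (2 * g ^ ph (t.1, t.2.1)) ≤
        rho W (kk W u₀ X q t.2.2) * rho W (u₀ + t.2.2) := mul_le_mul_of_nonneg_left h4 h7.le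
    linarith
  have hex : ∀ i, ∃ M : Finset ℤ, M ⊆ Ioc u₀ u₁ ∧ M.card = α ∧
      ∏ u ∈ M, rho W u = g ^ E * (∏ t ∈ Tr P X i, rho W (kk W u₀ X q t.2.2)) * x i := by
    intro i
    let V1 : Finset ℤ := (Tr P X i).image v1
    let V2 : Finset ℤ := (range (nn i)).image fun e => g ^ (e₀ + e)
    have hinj2 : Set.InjOn (fun e : ℕ => g ^ (e₀ + e)) (range (nn i) : Set ℕ) := by
      intro a _ b _ hab
      have : e₀ + a = e₀ + b := by
        rcases lt_trichotomy (e₀ + a) (e₀ + b) with h | h | h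
        · exact absurd hab (hglt _ _ h).ne
        · exact h
        · exact absurd hab (hglt _ _ h).ne'
      omega
    have hV2 : ∀ v ∈ V2, W ∣ v - 1 ∧ rho W u₀ < v ∧ v < la i := by
      intro v hv
      rw [Finset.mem_image] at hv
      obtain ⟨e, he, rfl⟩ := hv
      rw [Finset.mem_range] at he
      refine ⟨hg1 _, lt_of_lt_of_le he₀ (hgmono _ _ (by omega)), ?_⟩
      exact lt_of_lt_of_le (hglt _ _ (by omega)) (hla i)
    have hd2 : la i ∉ V2 := fun h => lt_irrefl _ (hV2 _ h).2.2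
    have hd1 : Disjoint V1 (insert (la i) V2) := by
      rw [Finset.disjoint_left]
      intro v hv hv'
      rw [Finset.mem_image] at hv
      obtain ⟨t, -, rfl⟩ := hv
      have h1 := hv1big t
      have h2 := hqB i
      rw [Finset.mem_insert] at hv'
      rcases hv' with h | h
      · omega
      · have := (hV2 _ h).2.2
        omega
    obtain ⟨M, hM1, hM2, hM3⟩ := conv (W := W) (u₀ := u₀) (u₁ := u₁) hW (V1 ∪ insert (la i) V2) (by
      intro v hv
      have hr1 : q < rho W u₁ := by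
        have := le_rho hW (x := u₁) (by omega)
        omega
      rw [Finset.mem_union, Finset.mem_insert] at hv
      rcases hv with h | h | h
      · rw [Finset.mem_image] at h
        obtain ⟨t, ht, rfl⟩ := h
        refine ⟨?_, ?_, hv1small i t ht⟩
        · have h1 : v1 t - 1 = W * kk W u₀ X q t.2.2 * g ^ ph (t.1, t.2.1) +
              (g ^ ph (t.1, t.2.1) - 1) := by
            change rho W (kk W u₀ X q t.2.2) * g ^ ph (t.1, t.2.1) - 1 = _
            unfold rho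
            ring
          rw [h1]
          exact dvd_add (Dvd.intro (kk W u₀ X q t.2.2 * g ^ ph (t.1, t.2.1)) (by ring)) (hg1 _)
        · have h1 := hv1big t
          have h2 := hqB i
          have h3 := hla i
          have h4 := hgmono e₀ (e₀ + nn i) (by omega)
          omega
      · subst h
        refine ⟨?_, ?_, ?_⟩
        · have h1 : la i - 1 = (x i - 1) * g ^ (E - AA i) + (g ^ (E - AA i) - 1) := by
            change x i * g ^ (E - AA i) - 1 = _
            ring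
          rw [h1]
          exact dvd_add ((hxW i).mul_right _) (hg1 _)
        · have h3 := hla i
          have h4 := hgmono e₀ (e₀ + nn i) (by omega)
          omega
        · have := hqB i
          omega
      · obtain ⟨h1, h2, h3⟩ := hV2 v h
        refine ⟨h1, h2, ?_⟩
        have := hqB i
        omega)
    refine ⟨M, hM1, ?_, ?_⟩
    · rw [hM2, Finset.card_union_of_disjoint hd1, Finset.card_insert_of_notMem hd2,
        Finset.card_image_of_injOn (hv1inj i), Finset.card_image_of_injOn hinj2, Finset.card_range]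
      have := hα i
      change (Tr P X i).card + (α - 1 - (Tr P X i).card + 1) = α
      omega
    · rw [hM3, Finset.prod_union hd1, Finset.prod_insert hd2, Finset.prod_image (hv1inj i),
        Finset.prod_image hinj2, Finset.prod_mul_distrib, Finset.prod_pow_eq_pow_sum,
        Finset.prod_pow_eq_pow_sum]
      have h1 : g ^ E = g ^ (∑ t ∈ Tr P X i, ph (t.1, t.2.1)) *
          g ^ (∑ e ∈ range (nn i), (e₀ + e)) * g ^ (E - AA i) := by
        rw [← pow_add, ← pow_add]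
        congr 1
        have := hE i
        change E = AA i + (E - AA i)
        omega
      rw [h1]
      change _ * (x i * g ^ (E - AA i) * _) = _
      ring
  choose M hM1 hM2 hM3 using hex
  refine ⟨M, (g : ℚ) ^ E, ?_, hM1, hM2, fun i => ?_⟩
  · have : (0 : ℚ) < g := by exact_mod_cast (by omega : 0 < g)
    positivity
  · have h1 : ∏ t ∈ Tr P X i, Kq W u₀ u₁ t.2.2 =
        ∏ t ∈ Tr P X i, (rho W (kk W u₀ X q t.2.2) : ℚ) :=
      Finset.prod_congr rfl fun t ht => Kq_eq hW hX' (hTr i t ht)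
    rw [h1]
    exact_mod_cast hM3 i

end Pool.Agent.D0H5.CGX
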