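import Pool.Agent.N855.SG.Cert

/-!
# The number of real solutions when some roots are far to the left
-/

set_option autoImplicit false

namespace Pool.Agent.D0H5.CGX

open Polynomial Pool.Agent.R713.AS Pool.Agent.N855.SG

/-- the polynomial with the roots `S` as a real function -/
noncomputable def Ar (S : Finset ℚ) (x : ℝ) : ℝ := ∏ s ∈ S, (x - (s : ℝ))

lemma eval_Ar (S : Finset ℚ) (x : ℝ) : (PP (fun s : S => ((s : ℚ) : ℝ))).eval x = Ar S x := by
  rw [eval_PP]
  unfold Ar
  exact Finset.prod_coe_sort S (fun s => x - (s : ℝ))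

/-- the number of the solutions in the gap below the root `l` -/
def cw (t l : ℕ) : ℕ := if (t - l) % 2 = 1 then (if l = 0 then 1 else 2) else 0

lemma sum_cw (t : ℕ) : ∑ l : Fin t, cw t l = t := by
  have h1 : ∀ t : ℕ, ∑ j ∈ Finset.range t, (if (j + 1) % 2 = 1 then 2 else 0) = t + t % 2 := by
    intro t
    induction t with
    | zero => rfl
    | succ t ih =>
      rw [Finset.sum_range_succ, ih]
      split_ifs <;> omega
  rw [Fin.sum_univ_eq_sum_range (fun l => cw t l)]
  rcases Nat.eq_zero_or_pos t with rfl | ht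
  · rfl
  have h2 : ∑ l ∈ Finset.range t, cw t l + t % 2 =
      ∑ l ∈ Finset.range t, (if (t - l) % 2 = 1 then 2 else 0) := by
    obtain ⟨s, rfl⟩ : ∃ s, t = s + 1 := ⟨t - 1, by omega⟩
    rw [Finset.sum_range_succ', Finset.sum_range_succ']
    have h3 : ∀ l ∈ Finset.range s, cw (s + 1) (l + 1) =
        (if (s + 1 - (l + 1)) % 2 = 1 then 2 else 0) := by
      intro l _
      unfold cw
      rw [if_neg (Nat.succ_ne_zero l)]
    rw [Finset.sum_congr rfl h3]
    unfold cw
    split_ifs <;> omega
  rw [← Finset.sum_range_reflect] at h2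
  have h4 : ∑ j ∈ Finset.range t, (if (t - (t - 1 - j)) % 2 = 1 then 2 else 0) =
      ∑ j ∈ Finset.range t, (if (j + 1) % 2 = 1 then 2 else 0) := by
    apply Finset.sum_congr rfl
    intro j hj
    rw [Finset.mem_range] at hj
    have : t - (t - 1 - j) = j + 1 := by omega
    rw [this]
  have h5 := h1 t
  have h6 : ∑ l ∈ Finset.range t, (if (t - l) % 2 = 1 then 2 else 0) =
      ∑ j ∈ Finset.range t, (if (t - (t - 1 - j)) % 2 = 1 then 2 else 0) :=
    (Finset.sum_range_reflect (fun l => if (t - l) % 2 = 1 then 2 else 0) t).symm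
  rw [Finset.sum_range_reflect (fun l => cw t l) t] at h2
  omega

theorem count_wide {t : ℕ} (ht : 0 < t) (S : Finset ℚ) (c : Fin t → ℚ)
    (hc : ∀ i j, i < j → c i < c j) (hcS : ∀ l, c l ∈ S) (w₀ w₁ : ℝ)
    (hrest : ∀ s ∈ S, (∀ l, s ≠ c l) → w₀ ≤ s ∧ (s : ℝ) ≤ w₁) (hcw : ∀ l, (c l : ℝ) < w₀)
    (hpar : Even (S.card - t)) (v : ℝ) (hv : 0 < v)
    (hI : ∀ x, w₀ ≤ x → x ≤ w₁ → |Ar S x| < v) (m : Fin t → ℝ) (hm1 : ∀ l, m l < c l)
    (hm2 : ∀ l i, i < l → (c i : ℝ) < m l) (hm : ∀ l, v < |Ar S (m l)|) :
    {x : ℝ | Ar S x = - v}.ncard = t := by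
  classical
  have : Nonempty (Fin t) := ⟨⟨0, ht⟩⟩
  have : Nonempty S := ⟨⟨c ⟨0, ht⟩, hcS _⟩⟩
  set a : S → ℝ := fun s => ((s : ℚ) : ℝ) with ha
  set A : Fin t → ℝ := fun l => (c l : ℝ) with hA
  have hcR : ∀ i j, i < j → A i < A j := fun i j hij => by
    simp only [hA]
    exact_mod_cast hc i j hij
  have hcinj : Function.Injective c := by
    intro i j h
    rcases lt_trichotomy i j with h1 | h1 | h1
    · exact absurd h (hc _ _ h1).ne
    · exact h1
    · exact absurd h (hc _ _ h1).ne'
  set Wd : Finset ℚ := Finset.univ.image c with hWd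
  have hWdS : Wd ⊆ S := by
    intro s hs
    rw [hWd, Finset.mem_image] at hs
    obtain ⟨l, -, rfl⟩ := hs
    exact hcS l
  have hWc : Wd.card = t := by
    rw [hWd, Finset.card_image_of_injective _ hcinj, Finset.card_univ, Fintype.card_fin]
  have hnW : ∀ s, s ∉ Wd ↔ ∀ l, s ≠ c l := by
    intro s
    rw [hWd, Finset.mem_image]
    constructor
    · intro h l hl
      exact h ⟨l, Finset.mem_univ _, hl.symm⟩
    · rintro h ⟨l, -, hl⟩
      exact h l hl.symm
  -- the two factors
  have hsplit : ∀ x, Ar S x = (∏ l, (x - A l)) * ∏ s ∈ S \ Wd, (x - (s : ℝ)) := by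
    intro x
    unfold Ar
    rw [← Finset.prod_sdiff hWdS, mul_comm]
    congr 1
    rw [hWd, Finset.prod_image fun i _ j _ h => hcinj h]
  have hrp : ∀ x, x < w₀ → 0 < ∏ s ∈ S \ Wd, (x - (s : ℝ)) := by
    intro x hx
    have h1 : ∏ s ∈ S \ Wd, (x - (s : ℝ)) = ∏ s ∈ S \ Wd, (-1 : ℝ) * ((s : ℝ) - x) :=
      Finset.prod_congr rfl fun s _ => by ring
    rw [h1, Finset.prod_mul_distrib, Finset.prod_const, Finset.card_sdiff_of_subset hWdS, hWc,
      hpar.neg_one_pow, one_mul]
    apply Finset.prod_pos
    intro s hs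
    rw [Finset.mem_sdiff, hnW] at hs
    have := (hrest s hs.1 hs.2).1
    linarith
  have hsgn : ∀ (l : Fin t) (x : ℝ), x < A l → (∀ i, i < l → A i < x) →
      0 < (-1 : ℝ) ^ (t - l.val) * Ar S x := by
    intro l x h1 h2
    have h3 := sign A hcR l x h1 h2
    have h4 := hrp x (h1.trans (hcw l))
    rw [hsplit, ← mul_assoc]
    exact mul_pos h3 h4
  have hroot : ∀ l, Ar S (A l) = 0 := by
    intro l
    rw [hsplit, Finset.prod_eq_zero (Finset.mem_univ l) (sub_self _), zero_mul]
  have hlast : ∀ x, (∀ l, A l < x) → Ar S x ≠ - v := by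
    intro x hx h
    rcases lt_or_ge x w₀ with h1 | h1
    · have h2 := hrp x h1
      have h3 : 0 < ∏ l, (x - A l) := Finset.prod_pos fun l _ => sub_pos.2 (hx l)
      have := mul_pos h3 h2
      rw [← hsplit, h] at this
      linarith
    · rcases le_or_gt x w₁ with h2 | h2
      · have := hI x h1 h2
        rw [h, abs_neg, abs_of_pos hv] at this
        exact lt_irrefl _ this
      · have h3 : 0 < Ar S x := by
          unfold Ar
          apply Finset.prod_pos
          intro s hs
          by_cases h4 : ∀ l, s ≠ c l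
          · have := (hrest s hs h4).2
            linarith
          · push Not at h4
            obtain ⟨l, rfl⟩ := h4
            exact sub_pos.2 (hx l)
        rw [h] at h3
        linarith
  have hS : {x : ℝ | Ar S x = - v} = {x : ℝ | (PP a).eval x = - v} := by
    ext x
    simp only [Set.mem_ofPred_eq, ha, eval_Ar]
  rw [hS]
  have hrt : ∀ l, (PP a).eval (A l) = 0 := fun l => by rw [ha, eval_Ar, hroot]
  rw [← sum_cw t]
  refine ncard_pieces (κ := Fin t) _ ?_ (fun j => {x | x < A j ∧ ∀ i, i < j → A i < x}) ?_ ?_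
    (fun l => cw t l) ?_
  · have h1 : PP a + C v ≠ 0 := by
      intro h
      have h2 := congrArg (eval (A ⟨0, ht⟩)) h
      rw [eval_add, eval_C, eval_zero, hrt] at h2
      linarith
    refine (Polynomial.finite_setOfPred_isRoot h1).subset fun x hx => ?_
    simp only [Set.mem_ofPred_eq, IsRoot.def, eval_add, eval_C] at hx ⊢
    linarith
  · intro x hx
    simp only [Set.mem_ofPred_eq] at hx
    rw [ha, eval_Ar] at hx
    have hne : ∀ i, A i ≠ x := by
      intro i h3
      rw [← h3, hroot] at hx
      linarith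
    have h1 : ∃ i, x < A i := by
      by_contra hcon
      push Not at hcon
      exact hlast x (fun l => lt_of_le_of_ne (hcon l) (hne l)) hx
    obtain ⟨i0, hi0⟩ := h1
    obtain ⟨j, hj, hmin⟩ := WellFounded.has_min (wellFounded_lt (α := Fin t)) {i | x < A i} ⟨i0, hi0⟩
    refine ⟨j, hj, fun i hi => ?_⟩
    have h2 : A i ≤ x := not_lt.1 fun h3 => hmin i h3 hi
    exact lt_of_le_of_ne h2 (hne i)
  · rintro k k' x ⟨hk1, hk2⟩ ⟨hk1', hk2'⟩
    rcases lt_trichotomy k k' with h3 | h3 | h3
    · exact absurd (hk2' k h3) (not_lt.2 hk1.le)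
    · exact h3
    · exact absurd (hk2 k' h3) (not_lt.2 hk1'.le)
  · intro l
    unfold cw
    by_cases hp : (t - l.val) % 2 = 1
    · rw [if_pos hp]
      have hodd : Odd (t - l.val) := Nat.odd_iff.2 hp
      have hml : Ar S (m l) < - v := by
        have h1 := hsgn l (m l) (hm1 l) (hm2 l)
        rw [hodd.neg_one_pow] at h1
        have h2 := hm l
        rw [abs_of_neg (by linarith)] at h2
        linarith
      by_cases hl0 : l.val = 0
      · rw [if_pos hl0]
        have hI' : {x | x < A l ∧ ∀ i, i < l → A i < x} = Set.Iio (A l) := by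
          ext x
          simp only [Set.mem_ofPred_eq, Set.mem_Iio, and_iff_left_iff_imp]
          intro _ i hi
          exact absurd hi (by rw [Fin.lt_def]; omega)
        rw [hI']
        refine left' a (A l) (m l) v ?_ (hrt l) hv (hm1 l) (by rw [ha, eval_Ar]; exact hml)
        intro s
        by_cases h4 : ∀ i, (s : ℚ) ≠ c i
        · have h5 := (hrest s s.2 h4).1
          have h6 := hcw l
          simp only [ha, hA]
          linarith
        · push Not at h4
          obtain ⟨i, hi⟩ := h4
          simp only [ha, hA, hi]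
          rcases eq_or_ne l i with h3 | h3
          · rw [h3]
          · exact_mod_cast (hc l i (lt_of_le_of_ne (by rw [Fin.le_def]; omega) h3)).le
      · rw [if_neg hl0]
        have hprd : prd l < l := by
          rw [Fin.lt_def]
          show l.val - 1 < l.val
          omega
        have hpl : ∀ i, i < l → i ≤ prd l := by
          intro i hi
          rw [Fin.le_def]
          show i.val ≤ l.val - 1
          have := Fin.lt_def.1 hi
          omega
        have hmono : ∀ i j, i ≤ j → A i ≤ A j := by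
          intro i j hij
          rcases eq_or_lt_of_le hij with h | h
          · rw [h]
          · exact (hcR i j h).le
        have hI' : {x | x < A l ∧ ∀ i, i < l → A i < x} = Set.Ioo (A (prd l)) (A l) := by
          ext x
          simp only [Set.mem_ofPred_eq, Set.mem_Ioo]
          constructor
          · rintro ⟨h3, h4⟩
            exact ⟨h4 _ hprd, h3⟩
          · rintro ⟨h3, h4⟩
            exact ⟨h4, fun i hi => lt_of_le_of_lt (hmono _ _ (hpl i hi)) h3⟩
        rw [hI']
        refine gap a (A (prd l)) (A l) (m l) v ?_ (hrt _) (hrt _) (hm2 l _ hprd) (hm1 l) hv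
          (by rw [ha, eval_Ar]; exact hml)
        intro s
        by_cases h4 : ∀ i, (s : ℚ) ≠ c i
        · right
          have h5 := (hrest s s.2 h4).1
          have h6 := hcw l
          simp only [ha, hA]
          linarith
        · push Not at h4
          obtain ⟨i, hi⟩ := h4
          simp only [ha, hi]
          rcases lt_or_ge i l with h3 | h3
          · left
            exact hmono _ _ (hpl i h3)
          · right
            exact hmono _ _ h3
    · rw [if_neg hp]
      have heven : Even (t - l.val) := by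
        rw [Nat.even_iff]
        omega
      have : {x : ℝ | (PP a).eval x = - v} ∩ {x | x < A l ∧ ∀ i, i < l → A i < x} = ∅ := by
        rw [Set.eq_empty_iff_forall_notMem]
        rintro x ⟨hx1, hx2, hx3⟩
        simp only [Set.mem_ofPred_eq] at hx1
        rw [ha, eval_Ar] at hx1
        have h1 := hsgn l x hx2 hx3
        rw [heven.neg_one_pow, hx1] at h1
        linarith
      rw [this, Set.ncard_empty]

end Pool.Agent.D0H5.CGX
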