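import Pool.Agent.D0H5.CGX.Core
import Pool.Agent.D0H5.CGX.Wide

/-!
# Polynomials with equal values at prescribed points and a prescribed number of real solutions
-/

set_option autoImplicit false

namespace Pool.Agent.D0H5.CGX

open Finset Polynomial Pool.Agent.W460.CG Pool.Agent.W289.CG

variable {k : ℕ}

/-- the additional elements -/
def fe (k : ℕ) (β : ℤ) (p : ℕ × ℕ) : ℚ := β - p.1 - 1 / (2 ^ k * (p.2 + 1))

lemma inv_bd (k y : ℕ) : 0 < (1 : ℚ) / (2 ^ k * (y + 1)) ∧ (1 : ℚ) / (2 ^ k * (y + 1)) ≤ 1 := by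
  have h1 : (1 : ℚ) ≤ 2 ^ k * (y + 1) := by
    have h2 : (1 : ℚ) ≤ 2 ^ k := one_le_pow₀ (by norm_num)
    have h3 : (1 : ℚ) ≤ y + 1 := by
      have : (0 : ℚ) ≤ y := by positivity
      linarith
    nlinarith
  exact ⟨by positivity, by rw [div_le_one (by positivity)]; exact h1⟩

lemma fe_inj (k : ℕ) (β : ℤ) : Function.Injective (fe k β) := by
  rintro ⟨l, y⟩ ⟨l', y'⟩ h
  unfold fe at h
  simp only at h
  obtain ⟨h1, h2⟩ := inv_bd k y
  obtain ⟨h3, h4⟩ := inv_bd k y'
  have h5 : (l : ℤ) = l' := by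
    have h6 : ((l : ℤ) : ℚ) - (l' : ℤ) < 1 := by push_cast; linarith
    have h7 : ((l' : ℤ) : ℚ) - (l : ℤ) < 1 := by push_cast; linarith
    have h6' : (l : ℤ) - l' < 1 := by exact_mod_cast h6
    have h7' : (l' : ℤ) - l < 1 := by exact_mod_cast h7
    omega
  have h5' : l = l' := by exact_mod_cast h5
  subst h5'
  have h8 : (1 : ℚ) / (2 ^ k * (y + 1)) = 1 / (2 ^ k * (y' + 1)) := by linarith
  have hWQ : (0 : ℚ) < 2 ^ k := by positivity
  rw [div_eq_div_iff (by positivity) (by positivity)] at h8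
  have h9 : (y : ℚ) = y' := by
    apply mul_left_cancel₀ hWQ.ne'
    linarith
  have h10 : y = y' := by exact_mod_cast h9
  rw [h10]

lemma ext_of (P : Par k) (β : ℤ) (hβ : ∀ i, β ≤ P.b i - 1) (Q : Finset (ℕ × ℕ)) :
    Ext P (2 ^ k) (Q.image (fe k β))
      (fun i => ∏ p ∈ Q, rho (2 ^ k) ((P.b i - β + p.1) * (p.2 + 1)))
      (∏ p ∈ Q, ((2 : ℚ) ^ k * (p.2 + 1))) := by
  classical
  have hW : (0 : ℤ) < 2 ^ k := by positivity
  refine ⟨?_, ?_, ?_, ?_, ?_⟩
  · intro i
    have : 0 < ∏ p ∈ Q, rho (2 ^ k) ((P.b i - β + p.1) * (p.2 + 1)) := by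
      apply Finset.prod_pos
      intro y _
      apply rho_pos hW
      have := hβ i
      exact mul_nonneg (by omega) (by omega)
    omega
  · intro i
    have h1 : ∏ p ∈ Q, rho (2 ^ k) ((P.b i - β + p.1) * (p.2 + 1)) ≡ ∏ _p ∈ Q, (1 : ℤ)
        [ZMOD 2 ^ k] := by
      apply Int.ModEq.prod
      intro p _
      unfold rho
      exact (Int.modEq_iff_dvd.2 ⟨- ((P.b i - β + p.1) * (p.2 + 1)), by ring⟩)
    rw [Finset.prod_const_one] at h1
    have h2 := (Int.modEq_iff_dvd.1 h1)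
    rw [← dvd_neg] at h2
    have h3 : -(1 - ∏ p ∈ Q, rho (2 ^ k) ((P.b i - β + p.1) * (p.2 + 1))) =
        ∏ p ∈ Q, rho (2 ^ k) ((P.b i - β + p.1) * (p.2 + 1)) - 1 := by ring
    rwa [h3] at h2
  · exact Finset.prod_pos fun y _ => by positivity
  · intro i
    rw [Finset.prod_image fun y _ z _ h => fe_inj k β h]
    push_cast
    rw [← Finset.prod_div_distrib]
    apply Finset.prod_congr rfl
    intro p _
    unfold fe rho
    push_cast
    field_simp
    ring
  · intro e he i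
    rw [Finset.mem_image] at he
    obtain ⟨p, -, rfl⟩ := he
    have h1 : (β : ℚ) ≤ P.b i - 1 := by exact_mod_cast hβ i
    have h2 := (inv_bd k p.2).1
    have h3 : (0 : ℚ) ≤ p.1 := by positivity
    unfold fe
    linarith

/-- Polynomials of every large degree `n ≡ t` modulo `2` with `n` different rational roots, equal
positive values at prescribed integers and exactly `t` real solutions of `A = - v` for all `v` in an
interval. -/
theorem exists_good_wide (hk : 2 ≤ k) (b : Fin k → ℤ) (hb : Function.Injective b) (t : ℕ)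
    (ht : 0 < t) : ∃ n₀ : ℕ, ∀ n : ℕ, n₀ ≤ n → Even (n - t) → ∃ (S : Finset ℚ) (v : ℚ),
      S.card = n ∧ Good b S v ∧ ∃ v₁ v₂ : ℝ, 0 < v₁ ∧ v₁ < v₂ ∧ ∀ v, v₁ < v → v < v₂ →
        {x : ℝ | Ar S x = - v}.ncard = t := by
  classical
  obtain ⟨P, rfl⟩ := exists_par b hb
  obtain ⟨p, α₀, hp, hcore⟩ := core hk P (2 * k + t)
  obtain ⟨β, hβ⟩ : ∃ β : ℤ, ∀ i, β ≤ P.b i - 1 := by
    obtain ⟨A, hA⟩ := (Set.finite_range P.b).bddBelow
    exact ⟨A - 1, fun i => by have := hA ⟨i, rfl⟩; omega⟩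
  obtain ⟨L, hL1, hL⟩ : ∃ L : ℕ, 1 ≤ L ∧ ∀ i, P.b i - β + 2 ≤ L := by
    obtain ⟨A, hA⟩ := (Set.finite_range P.b).bddAbove
    have h2 := le_abs_self A
    have h3 := neg_abs_le β
    have h4 := abs_nonneg A
    have h5 := abs_nonneg β
    refine ⟨(|A| + |β| + 3).toNat, by omega, fun i => ?_⟩
    have h1 := hA ⟨i, rfl⟩
    omega
  set Mm : ℕ := 2 * 6 ^ t * L with hMm
  have h6t : 0 < 6 ^ t := by positivity
  have hML : L ≤ Mm := by
    rw [hMm]
    nlinarith
  have hM2 : 2 ≤ Mm := by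
    rw [hMm]
    nlinarith
  let La : ℕ → ℕ := fun l => Mm * 3 ^ (t - 1 - l)
  have hLaM : ∀ l, Mm ≤ La l := fun l => Nat.le_mul_of_pos_right _ (by positivity)
  have hLa3 : ∀ i l, i < l → l < t → 3 * La l ≤ La i := by
    intro i l hil hlt
    change 3 * (Mm * 3 ^ (t - 1 - l)) ≤ Mm * 3 ^ (t - 1 - i)
    have h1 : 3 ^ (t - 1 - l + 1) ≤ 3 ^ (t - 1 - i) := Nat.pow_le_pow_right (by norm_num) (by omega)
    calc 3 * (Mm * 3 ^ (t - 1 - l)) = Mm * 3 ^ (t - 1 - l + 1) := by ring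
      _ ≤ _ := Nat.mul_le_mul_left _ h1
  have hLalt : ∀ i l, i < l → l < t → La l < La i := by
    intro i l hil hlt
    have h1 := hLa3 i l hil hlt
    have h2 := hLaM l
    omega
  -- the additional elements
  let Q1 : ℕ → Finset (ℕ × ℕ) := fun a => (range a).image fun y => (0, y)
  let Q2 : Finset (ℕ × ℕ) := Finset.image (fun l : Fin t => ((La (l : ℕ), 0) : ℕ × ℕ)) (Finset.univ : Finset (Fin t))
  let c : Fin t → ℚ := fun l : Fin t => fe k β (La (l : ℕ), 0)
  have hQ1c : ∀ a, (Q1 a).card = a := by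
    intro a
    rw [Finset.card_image_of_injective, Finset.card_range]
    intro y z h
    exact (Prod.mk.injEq _ _ _ _ ▸ h).2
  have hLainj : ∀ i l : Fin t, La i = La l → i = l := by
    intro i l h
    rcases lt_trichotomy (i : ℕ) l with h1 | h1 | h1
    · have := hLalt _ _ h1 l.2; omega
    · exact Fin.ext h1
    · have := hLalt _ _ h1 i.2; omega
  have hQ2c : Q2.card = t := by
    rw [Finset.card_image_of_injective, Finset.card_univ, Fintype.card_fin]
    intro i l h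
    exact hLainj i l (Prod.mk.injEq _ _ _ _ ▸ h).1
  have hQd : ∀ a, Disjoint (Q1 a) Q2 := by
    intro a
    rw [Finset.disjoint_left]
    rintro q h1 h2
    rw [Finset.mem_image] at h1 h2
    obtain ⟨y, -, rfl⟩ := h1
    obtain ⟨l, -, h3⟩ := h2
    have h4 : La l = 0 := (Prod.mk.injEq _ _ _ _ ▸ h3).1
    have := hLaM l
    omega
  let E : ℕ → Finset ℚ := fun a => (Q1 a ∪ Q2).image (fe k β)
  have hEc : ∀ a, (E a).card = a + t := by
    intro a
    rw [Finset.card_image_of_injective _ (fe_inj k β), Finset.card_union_of_disjoint (hQd a), hQ1c,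
      hQ2c]
  have hq : ∀ α a : ℕ, α₀ ≤ α → a < 2 * k → ∃ q₀ : ℕ, ∀ q : ℕ, q₀ ≤ q → Even (p * q + α) →
      ∃ (S : Finset ℚ) (v : ℚ), E a ⊆ S ∧ S.card = k * (p * q + α) + (a + t) ∧ Good P.b S v ∧
        ∀ s ∈ S, s ∉ E a → ∃ i, |(P.b i : ℚ) - s| ≤ 1 / 2 := by
    intro α a hα ha
    obtain ⟨q₀, hq₀⟩ := hcore (E a) _ _ (ext_of P β hβ (Q1 a ∪ Q2)) (by
      have := hEc a
      change (E a).card ≤ _
      omega) α hα
    refine ⟨q₀, fun q hq hev => ?_⟩
    obtain ⟨S, v, h1, h2, h3, h4⟩ := hq₀ q hq hev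
    exact ⟨S, v, h1, by rw [h2]; congr 1; exact hEc a, h3, h4⟩
  choose q₀ hq₀ using hq
  let Qm : ℕ := ∑ α ∈ range (α₀ + p), ∑ a ∈ range (2 * k),
    if h : α₀ ≤ α ∧ a < 2 * k then q₀ α a h.1 h.2 else 0
  have hQ : ∀ α a (h1 : α₀ ≤ α) (h2 : a < 2 * k), α < α₀ + p → q₀ α a h1 h2 ≤ Qm := by
    intro α a h1 h2 h3
    have h4 : q₀ α a h1 h2 = if h : α₀ ≤ α ∧ a < 2 * k then q₀ α a h.1 h.2 else 0 := by
      rw [dif_pos ⟨h1, h2⟩]
    rw [h4]
    refine le_trans (Finset.single_le_sum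
      (f := fun a => if h : α₀ ≤ α ∧ a < 2 * k then q₀ α a h.1 h.2 else 0)
      (fun _ _ => Nat.zero_le _) (Finset.mem_range.2 h2)) ?_
    exact Finset.single_le_sum (f := fun α => ∑ a ∈ range (2 * k),
      if h : α₀ ≤ α ∧ a < 2 * k then q₀ α a h.1 h.2 else 0)
      (fun _ _ => Nat.zero_le _) (Finset.mem_range.2 h3)
  refine ⟨2 * k * (α₀ + p * Qm + 1) + t, fun n hn hpar => ?_⟩
  have hk2 : 0 < 2 * k := by omega
  set T : ℕ := (n - t) / (2 * k) with hT
  have ht1 : α₀ + p * Qm + 1 ≤ T := by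
    rw [hT, Nat.le_div_iff_mul_le hk2, mul_comm]
    omega
  set a : ℕ := (n - t) % (2 * k) with ha'
  have ha : a < 2 * k := Nat.mod_lt _ hk2
  have hn' : 2 * k * T + a = n - t := Nat.div_add_mod (n - t) (2 * k)
  set z : ℕ := 2 * T - α₀ with hz
  have hzq : Qm ≤ z / p := by
    rw [Nat.le_div_iff_mul_le hp, mul_comm]
    omega
  have hmod : z % p < p := Nat.mod_lt _ hp
  have hdm : p * (z / p) + z % p = z := Nat.div_add_mod z p
  have hsum : p * (z / p) + (α₀ + z % p) = 2 * T := by omega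
  obtain ⟨S, v, h0, h1, h2, h3⟩ := hq₀ (α₀ + z % p) a (by omega) ha (z / p)
    ((hQ _ _ _ _ (by omega)).trans hzq) (by rw [hsum]; exact even_two_mul T)
  have hcard : S.card = n := by
    rw [h1, hsum]
    have h4 : k * (2 * T) = 2 * k * T := by ring
    have h5 : 2 * k * 1 ≤ 2 * k * T := Nat.mul_le_mul_left _ (by omega)
    omega
  refine ⟨S, v, hcard, h2, ?_⟩
  -- the wide roots
  have hcS : ∀ l, c l ∈ S := by
    intro l
    apply h0
    apply Finset.mem_image_of_mem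
    apply Finset.mem_union_right
    exact Finset.mem_image_of_mem _ (Finset.mem_univ l)
  obtain ⟨ω, hω, hWr⟩ : ∃ ω : ℝ, (((1 : ℚ) / (2 ^ k * ((0 : ℕ) + 1)) : ℚ) : ℝ) = ω ∧
      (0 < ω ∧ ω ≤ 1) := by
    obtain ⟨g1, g2⟩ := inv_bd k 0
    exact ⟨_, rfl, by exact_mod_cast g1, by exact_mod_cast g2⟩
  have hcR : ∀ l : Fin t, (c l : ℝ) = β - (La (l : ℕ) : ℝ) - ω := by
    intro l
    rw [← hω]
    change ((fe k β (La (l : ℕ), 0) : ℚ) : ℝ) = _
    unfold fe
    push_cast
    ring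
  have hcinj : Function.Injective c := by
    intro i l h
    exact hLainj i l (Prod.mk.injEq _ _ _ _ ▸ fe_inj k β h).1
  set w₀ : ℝ := β - 1 with hw₀
  set w₁ : ℝ := β - 1 + L with hw₁
  have hLR : (1 : ℝ) ≤ L := by exact_mod_cast hL1
  have hrest : ∀ s ∈ S, (∀ l, s ≠ c l) → w₀ ≤ s ∧ (s : ℝ) ≤ w₁ := by
    intro s hs hsc
    by_cases hsE : s ∈ E a
    · rw [Finset.mem_image] at hsE
      obtain ⟨q, hq, rfl⟩ := hsE
      rw [Finset.mem_union] at hq
      rcases hq with hq | hq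
      · rw [Finset.mem_image] at hq
        obtain ⟨y, -, rfl⟩ := hq
        obtain ⟨g1, g2⟩ := inv_bd k y
        have g3 : ((fe k β (0, y) : ℚ) : ℝ) = β - (((1 : ℚ) / (2 ^ k * (y + 1)) : ℚ) : ℝ) := by
          unfold fe
          push_cast
          ring
        have g1' : (0 : ℝ) < (((1 : ℚ) / (2 ^ k * (y + 1)) : ℚ) : ℝ) := by exact_mod_cast g1
        have g2' : (((1 : ℚ) / (2 ^ k * (y + 1)) : ℚ) : ℝ) ≤ 1 := by exact_mod_cast g2
        rw [g3]
        constructor <;> linarith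
      · rw [Finset.mem_image] at hq
        obtain ⟨l, -, rfl⟩ := hq
        exact absurd rfl (hsc l)
    · obtain ⟨i, hi⟩ := h3 s hs hsE
      rw [abs_le] at hi
      have g1 : (β : ℚ) ≤ P.b i - 1 := by exact_mod_cast hβ i
      have g2 : (P.b i : ℚ) - β + 2 ≤ L := by exact_mod_cast hL i
      have g3 : (β : ℚ) - 1 ≤ s := by linarith [hi.2]
      have g4 : s ≤ (β : ℚ) - 1 + L := by linarith [hi.1]
      have g5 := (Rat.cast_le (K := ℝ)).2 g3
      have g6 := (Rat.cast_le (K := ℝ)).2 g4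
      push_cast at g5 g6
      exact ⟨g5, g6⟩
  have hMR : ∀ l, (Mm : ℝ) ≤ La l := fun l => by exact_mod_cast hLaM l
  have hMLR : (L : ℝ) ≤ Mm := by exact_mod_cast hML
  have hM2R : (2 : ℝ) ≤ Mm := by exact_mod_cast hM2
  have hLa3R : ∀ i l : Fin t, i < l → 3 * (La l : ℝ) ≤ La i := fun i l h => by
    exact_mod_cast hLa3 i l (Fin.lt_def.1 h) l.2
  set Wd : Finset ℚ := Finset.univ.image c with hWd
  have hWdS : Wd ⊆ S := by
    intro s hs
    rw [hWd, Finset.mem_image] at hs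
    obtain ⟨l, -, rfl⟩ := hs
    exact hcS l
  have hWc : Wd.card = t := by
    rw [hWd, Finset.card_image_of_injective _ hcinj, Finset.card_univ, Fintype.card_fin]
  have hnW : ∀ s, s ∉ Wd → ∀ l, s ≠ c l := by
    intro s h l hl
    exact h (by rw [hl]; exact Finset.mem_image_of_mem c (Finset.mem_univ l))
  have hSWc : (S \ Wd).card = n - t := by
    rw [Finset.card_sdiff_of_subset hWdS, hWc, hcard]
  have hsplit : ∀ x, |Ar S x| = (∏ l, |x - c l|) * ∏ s ∈ S \ Wd, |x - (s : ℝ)| := by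
    intro x
    unfold Ar
    rw [Finset.abs_prod, ← Finset.prod_sdiff hWdS, mul_comm]
    congr 1
    rw [hWd, Finset.prod_image fun i _ j _ h => hcinj h]
  set Pr : ℝ := ∏ l : Fin t, (La l : ℝ) with hPr
  have hPr0 : 0 < Pr := Finset.prod_pos fun l _ => by linarith [hMR l]
  have hnt : 1 ≤ n - t := by
    have h5 : 2 * k * 1 ≤ 2 * k * T := Nat.mul_le_mul_left _ (by omega)
    omega
  refine ⟨2 ^ t * Pr * (L : ℝ) ^ (n - t), Pr / 3 ^ t * (Mm : ℝ) ^ (n - t), by positivity, ?_, ?_⟩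
  · have g1 : (Mm : ℝ) ^ (n - t) = (2 * 6 ^ t) ^ (n - t) * (L : ℝ) ^ (n - t) := by
      rw [← mul_pow, hMm]
      push_cast
      ring
    have g2 : (2 : ℝ) * 6 ^ t ≤ (2 * 6 ^ t) ^ (n - t) :=
      le_self_pow₀ (by
        have : (1 : ℝ) ≤ 6 ^ t := one_le_pow₀ (by norm_num)
        linarith) (by omega)
    have g3 : (0 : ℝ) < (L : ℝ) ^ (n - t) := by positivity
    have g4 : (2 : ℝ) ^ t * 3 ^ t = 6 ^ t := by
      rw [← mul_pow]
      norm_num
    have g5 : (0 : ℝ) < 3 ^ t := by positivity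
    have g6 : (0 : ℝ) < 6 ^ t := by positivity
    rw [div_mul_eq_mul_div, lt_div_iff₀ g5, g1]
    calc 2 ^ t * Pr * (L : ℝ) ^ (n - t) * 3 ^ t = (2 ^ t * 3 ^ t) * (Pr * (L : ℝ) ^ (n - t)) := by ring
      _ = 6 ^ t * (Pr * (L : ℝ) ^ (n - t)) := by rw [g4]
      _ < (2 * 6 ^ t) * (Pr * (L : ℝ) ^ (n - t)) := by
          apply mul_lt_mul_of_pos_right _ (by positivity)
          linarith
      _ ≤ (2 * 6 ^ t) ^ (n - t) * (Pr * (L : ℝ) ^ (n - t)) :=
          mul_le_mul_of_nonneg_right g2 (by positivity)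
      _ = Pr * ((2 * 6 ^ t) ^ (n - t) * (L : ℝ) ^ (n - t)) := by ring
  · intro v' hv1 hv2
    have hv0 : 0 < v' := lt_trans (by positivity) hv1
    refine count_wide ht S c ?_ hcS w₀ w₁ hrest ?_ (by rw [hcard]; exact hpar) v' hv0 ?_
      (fun l => β - 2 * La l) ?_ ?_ ?_
    · intro i j hij
      have g1 := hLa3R i j hij
      have g2 := hMR j
      have g3 : (c i : ℝ) < c j := by
        rw [hcR, hcR]
        linarith
      exact_mod_cast g3
    · intro l
      rw [hcR]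
      have := hMR l
      linarith [hWr.1]
    · intro x hx1 hx2
      refine lt_of_le_of_lt ?_ hv1
      rw [hsplit]
      apply mul_le_mul
      · have g1 : (2 : ℝ) ^ t * Pr = ∏ l : Fin t, (2 * (La l : ℝ)) := by
          rw [Finset.prod_mul_distrib, Finset.prod_const, Finset.card_univ, Fintype.card_fin]
        rw [g1]
        apply Finset.prod_le_prod (fun _ _ => abs_nonneg _)
        intro l _
        have g2 := hMR l
        rw [hcR, abs_le]
        constructor <;> linarith [hWr.1, hWr.2]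
      · rw [← hSWc, ← Finset.prod_const]
        apply Finset.prod_le_prod (fun _ _ => abs_nonneg _)
        intro s hs
        rw [Finset.mem_sdiff] at hs
        obtain ⟨g1, g2⟩ := hrest s hs.1 (hnW s hs.2)
        rw [abs_le]
        constructor <;> linarith
      · exact Finset.prod_nonneg fun _ _ => abs_nonneg _
      · positivity
    · intro l
      rw [hcR]
      have := hMR l
      linarith [hWr.2]
    · intro l i hil
      rw [hcR]
      have := hLa3R i l hil
      have g2 := hMR l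
      linarith [hWr.1]
    · intro l
      refine lt_of_lt_of_le hv2 ?_
      rw [hsplit]
      apply mul_le_mul
      · have g1 : Pr / 3 ^ t = ∏ l : Fin t, ((La l : ℝ) / 3) := by
          rw [Finset.prod_div_distrib, Finset.prod_const, Finset.card_univ, Fintype.card_fin]
        rw [g1]
        apply Finset.prod_le_prod (fun j _ => by linarith [hMR j])
        intro j _
        rw [hcR]
        have g2 := hMR l
        have g3 := hMR j
        rcases lt_trichotomy j l with h | h | h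
        · have g4 := hLa3R j l h
          refine le_trans ?_ (le_abs_self _)
          linarith [hWr.1]
        · subst h
          refine le_trans ?_ (neg_le_abs _)
          linarith [hWr.2]
        · have g4 := hLa3R l j h
          refine le_trans ?_ (neg_le_abs _)
          linarith [hWr.2]
      · rw [← hSWc, ← Finset.prod_const]
        apply Finset.prod_le_prod (fun _ _ => by linarith)
        intro s hs
        rw [Finset.mem_sdiff] at hs
        obtain ⟨g1, g2⟩ := hrest s hs.1 (hnW s hs.2)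
        have g3 := hMR l
        refine le_trans ?_ (neg_le_abs _)
        linarith
      · positivity
      · exact Finset.prod_nonneg fun _ _ => abs_nonneg _

/-- the data with a prescribed number of real solutions -/
theorem exists_dat_wide (k : ℕ) (hk : 2 ≤ k) (t : ℕ) (ht : 0 < t) :
    ∃ n₀ : ℕ, ∀ n : ℕ, n₀ ≤ n → Even (n - t) → ∃ (D : Dat n k) (v₁ v₂ : ℝ), 0 < v₁ ∧ v₁ < v₂ ∧
      ∀ v, v₁ < v → v < v₂ → {X : ℝ | ∏ i, (X - (D.a i : ℝ)) = - v}.ncard = t := by
  have hb : Function.Injective (fun j : Fin k => ((j : ℕ) : ℤ)) := by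
    intro i j h
    have h' : ((i : ℕ) : ℤ) = ((j : ℕ) : ℤ) := h
    exact Fin.ext (by exact_mod_cast h')
  obtain ⟨n₀, hn₀⟩ := exists_good_wide hk (fun j : Fin k => ((j : ℕ) : ℤ)) hb t ht
  refine ⟨n₀, fun n hn hpar => ?_⟩
  obtain ⟨S, v, h1, h2, v₁, v₂, h3, h4, h5⟩ := hn₀ n hn hpar
  obtain ⟨D, d, e, hd, he⟩ := of_set ⟨0, by omega⟩ (fun j : Fin k => ((j : ℕ) : ℤ)) hb S v h1
    h2.pos h2.val h2.der h2.gt
  have hdR : (0 : ℝ) < d := by exact_mod_cast hd
  have hdn : (0 : ℝ) < (d : ℝ) ^ n := by positivity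
  refine ⟨D, (d : ℝ) ^ n * v₁, (d : ℝ) ^ n * v₂, by positivity, by
    exact mul_lt_mul_of_pos_left h4 hdn, fun w hw1 hw2 => ?_⟩
  have h6 := h5 (w / (d : ℝ) ^ n) (by rw [lt_div_iff₀ hdn]; linarith)
    (by rw [div_lt_iff₀ hdn]; linarith)
  rw [← h6]
  have hset : {X : ℝ | ∏ i, (X - (D.a i : ℝ)) = - w} =
      (fun x => (d : ℝ) * x) '' {x : ℝ | Ar S x = - (w / (d : ℝ) ^ n)} := by
    ext X
    have h7 : ∏ i, (X - (D.a i : ℝ)) = (d : ℝ) ^ n * Ar S (X / d) := by
      have h8 : (d : ℝ) ^ n = ∏ _i : Fin n, (d : ℝ) := by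
        rw [Finset.prod_const, Finset.card_univ, Fintype.card_fin]
      have h9 : Ar S (X / d) = ∏ i : Fin n, (X / d - ((e i : ℚ) : ℝ)) := by
        unfold Ar
        rw [← Finset.prod_coe_sort S (fun s => X / d - (s : ℝ)),
          ← Equiv.prod_comp e (fun s : S => X / d - ((s : ℚ) : ℝ))]
      rw [h8, h9, ← Finset.prod_mul_distrib]
      refine Finset.prod_congr rfl fun i _ => ?_
      have h10 : ((D.a i : ℚ) : ℝ) = ((d * (e i : ℚ) : ℚ) : ℝ) := by rw [he i]
      push_cast at h10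
      rw [h10]
      field_simp
    simp only [Set.mem_ofPred_eq, Set.mem_image]
    rw [h7]
    constructor
    · intro h
      refine ⟨X / d, ?_, by field_simp⟩
      rw [← neg_div, eq_div_iff hdn.ne']
      linarith
    · rintro ⟨x, hx, rfl⟩
      rw [mul_div_cancel_left₀ _ hdR.ne', hx]
      field_simp
  rw [hset, Set.ncard_image_of_injective _ (mul_right_injective₀ hdR.ne')]

end Pool.Agent.D0H5.CGX
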