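import Pool.Agent.D0H5.CGX.Par

/-!
# The product over the blocks
-/

set_option autoImplicit false

namespace Pool.Agent.D0H5.CGX

open Finset

variable {k : ℕ}

/-! ### Telescoping -/

lemma Ioc_succ {a c : ℤ} (h : a ≤ c) : Ioc a (c + 1) = insert (c + 1) (Ioc a c) := by
  ext x
  simp only [Finset.mem_Ioc, Finset.mem_insert]
  omega

lemma tel_step (W u₀ c : ℤ) (L : ℕ) :
    (∏ u ∈ Ioc u₀ (u₀ + L), (rho W (u + (c + 1)) : ℚ)) * rho W (u₀ + (c + 1)) =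
      (∏ u ∈ Ioc u₀ (u₀ + L), (rho W (u + c) : ℚ)) * rho W (u₀ + L + (c + 1)) := by
  induction L with
  | zero => simp
  | succ L ih =>
    have h1 : u₀ + ((L + 1 : ℕ) : ℤ) = u₀ + L + 1 := by push_cast; ring
    have h2 : u₀ + (L : ℤ) + 1 ∉ Ioc u₀ (u₀ + (L : ℤ)) := by
      rw [Finset.mem_Ioc]
      omega
    rw [h1, Ioc_succ (by omega), Finset.prod_insert h2, Finset.prod_insert h2, mul_assoc, ih]
    have h3 : u₀ + (L : ℤ) + 1 + c = u₀ + L + (c + 1) := by ring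
    rw [h3]
    ring

lemma tel (W u₀ u₁ X c : ℤ) (hW : 0 < W) (h01 : u₀ ≤ u₁) (hX : 0 ≤ u₀ - X) (hc : - X ≤ c) :
    ∏ u ∈ Ioc u₀ u₁, (rho W (u + c) : ℚ) =
      (∏ u ∈ Ioc u₀ u₁, (rho W (u + - X) : ℚ)) *
        ∏ y ∈ Ioc (- X) c, ((rho W (u₁ + y) : ℚ) / rho W (u₀ + y)) := by
  obtain ⟨t, rfl⟩ : ∃ t : ℕ, c = - X + t := ⟨(c + X).toNat, by omega⟩
  obtain ⟨L, rfl⟩ : ∃ L : ℕ, u₁ = u₀ + L := ⟨(u₁ - u₀).toNat, by omega⟩
  induction t with
  | zero => simp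
  | succ t ih =>
    have ih' := ih (by omega)
    have h1 : - X + ((t + 1 : ℕ) : ℤ) = - X + t + 1 := by push_cast; ring
    have h2 : - X + (t : ℤ) + 1 ∉ Ioc (- X) (- X + (t : ℤ)) := by
      rw [Finset.mem_Ioc]
      omega
    have h3 : (rho W (u₀ + (- X + t + 1)) : ℚ) ≠ 0 := by
      have : 0 < rho W (u₀ + (- X + t + 1)) := by
        have := le_rho hW (x := u₀ + (- X + t + 1)) (by omega)
        omega
      exact_mod_cast this.ne'
    rw [h1, Ioc_succ (by omega), Finset.prod_insert h2]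
    have h4 := tel_step W u₀ (- X + t) L
    rw [← eq_div_iff h3] at h4
    rw [h4, ih']
    ring

/-! ### The blocks -/

/-- the sets in the block -/
def pr (M : Fin k → Finset ℤ) (j : Fin k) (u : ℤ) : Finset (Finset (Fin k)) :=
  if u ∈ M j then ods k else evs k

lemma pr_nonempty {M : Fin k → Finset ℤ} {j : Fin k} {u : ℤ} {S : Finset (Fin k)}
    (h : S ∈ pr M j u) : S.Nonempty := by
  unfold pr at h
  split_ifs at h
  · rw [mem_ods] at h
    rw [Finset.nonempty_iff_ne_empty]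
    rintro rfl
    simp at h
  · rw [mem_evs] at h
    exact h.1

lemma card_pr (hk : 0 < k) (M : Fin k → Finset ℤ) (j : Fin k) (u : ℤ) :
    (pr M j u).card = (evs k).card + if u ∈ M j then 1 else 0 := by
  unfold pr
  split_ifs
  · exact card_ods hk
  · rfl

lemma sum_card_pr (hk : 0 < k) (M : Fin k → Finset ℤ) (j : Fin k) (I : Finset ℤ) (h : M j ⊆ I) :
    ∑ u ∈ I, (pr M j u).card = I.card * (evs k).card + (M j).card := by
  rw [Finset.sum_congr rfl fun u _ => card_pr hk M j u, Finset.sum_add_distrib,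
    Finset.sum_const, smul_eq_mul, Finset.sum_boole]
  congr 1
  rw [Finset.filter_mem_eq_inter, Finset.inter_eq_right.2 h]
  rfl

lemma prod_pr_ne (P : Par k) (W : ℤ) (M : Fin k → Finset ℤ) {i j : Fin k} (hij : i ≠ j) (u : ℤ)
    (h : ∀ S, rho W (u + P.sg j S) ≠ 0) :
    (∏ S ∈ pr M j u, ((P.b i : ℚ) - P.el W j u S)) * ∏ S ∈ pr M j u, (rho W (u + P.sg j S) : ℚ) =
      ((P.b i : ℚ) - P.b j) ^ (pr M j u).card * (if u ∈ M j then (rho W u : ℚ) else 1) *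
        ∏ S ∈ evs k, (rho W (u + P.cc i j S) : ℚ) := by
  have h1 : ∀ S ∈ pr M j u, ((P.b i : ℚ) - P.el W j u S) * (rho W (u + P.sg j S) : ℚ) =
      ((P.b i : ℚ) - P.b j) * rho W (u + P.cc i j S) := by
    intro S _
    have h2 : (rho W (u + P.sg j S) : ℚ) ≠ 0 := by exact_mod_cast h S
    rw [P.sub_el W hij u S (h S), div_mul_cancel₀ _ h2]
  rw [← Finset.prod_mul_distrib, Finset.prod_congr rfl h1, Finset.prod_mul_distrib,
    Finset.prod_const, mul_assoc]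
  congr 1
  unfold pr
  split_ifs
  · exact P.odd_even W i j u
  · rw [one_mul]

lemma prod_pr_self (P : Par k) (W : ℤ) (M : Fin k → Finset ℤ) (j : Fin k) (u : ℤ)
    (h : ∀ S, rho W (u + P.sg j S) ≠ 0) :
    (∏ S ∈ pr M j u, ((P.b j : ℚ) - P.el W j u S)) * ∏ S ∈ pr M j u, (rho W (u + P.sg j S) : ℚ) =
      ((P.ka j : ℚ) * W) ^ (pr M j u).card * ∏ S ∈ pr M j u, (Nn S : ℚ) := by
  have h1 : ∀ S ∈ pr M j u, ((P.b j : ℚ) - P.el W j u S) * (rho W (u + P.sg j S) : ℚ) =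
      ((P.ka j : ℚ) * W) * Nn S := by
    intro S _
    have h2 : (rho W (u + P.sg j S) : ℚ) ≠ 0 := by exact_mod_cast h S
    rw [P.sub_el_self W j u S, div_mul_cancel₀ _ h2]
  rw [← Finset.prod_mul_distrib, Finset.prod_congr rfl h1, Finset.prod_mul_distrib,
    Finset.prod_const]

/-- the product of the numbers in the even sets -/
def Ne (k : ℕ) : ℚ := ∏ S ∈ evs k, (Nn S : ℚ)

/-- the product of the numbers in the odd sets -/
def No (k : ℕ) : ℚ := ∏ S ∈ ods k, (Nn S : ℚ)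

lemma Ne_pos : 0 < Ne k := by
  apply Finset.prod_pos
  intro S hS
  rw [mem_evs] at hS
  exact_mod_cast Nn_pos hS.1

lemma No_pos : 0 < No k := by
  apply Finset.prod_pos
  intro S hS
  rw [mem_ods] at hS
  have : S.Nonempty := by
    rw [Finset.nonempty_iff_ne_empty]
    rintro rfl
    simp at hS
  exact_mod_cast Nn_pos this

lemma prod_Nn (M : Fin k → Finset ℤ) (j : Fin k) (I : Finset ℤ) (h : M j ⊆ I) :
    ∏ u ∈ I, ∏ S ∈ pr M j u, (Nn S : ℚ) = Ne k ^ I.card * (No k / Ne k) ^ (M j).card := by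
  have h1 : ∀ u ∈ I, ∏ S ∈ pr M j u, (Nn S : ℚ) =
      Ne k * if u ∈ M j then No k / Ne k else 1 := by
    intro u _
    unfold pr
    split_ifs
    · rw [mul_div_cancel₀ _ Ne_pos.ne']
      rfl
    · rw [mul_one]
      rfl
  rw [Finset.prod_congr rfl h1, Finset.prod_mul_distrib, Finset.prod_const, Finset.prod_ite_mem,
    Finset.inter_eq_right.2 h, Finset.prod_const]

section main

variable (P : Par k) (W : ℤ) (M : Fin k → Finset ℤ) (u₀ u₁ : ℤ)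

/-- the value of the polynomial at the point `b i` -/
noncomputable def F (i : Fin k) : ℚ :=
  ∏ j, ∏ u ∈ Ioc u₀ u₁, ∏ S ∈ pr M j u, ((P.b i : ℚ) - P.el W j u S)

/-- the common denominator -/
noncomputable def Den : ℚ := ∏ j, ∏ u ∈ Ioc u₀ u₁, ∏ S ∈ pr M j u, (rho W (u + P.sg j S) : ℚ)

variable {P W M u₀ u₁}

lemma F_mul_Den (hk : 0 < k) (α : ℕ) (hMs : ∀ j, M j ⊆ Ioc u₀ u₁) (hMc : ∀ j, (M j).card = α)
    (h : ∀ j, ∀ u ∈ Ioc u₀ u₁, ∀ S, rho W (u + P.sg j S) ≠ 0) (i : Fin k) :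
    F P W M u₀ u₁ i * Den P W M u₀ u₁ * ∏ u ∈ M i, (rho W u : ℚ) =
      ((P.C : ℚ) * W) ^ ((Ioc u₀ u₁).card * (evs k).card + α) *
        (Ne k ^ (Ioc u₀ u₁).card * (No k / Ne k) ^ α) * (∏ j, ∏ u ∈ M j, (rho W u : ℚ)) *
        ∏ j ∈ univ.erase i, ∏ u ∈ Ioc u₀ u₁, ∏ S ∈ evs k, (rho W (u + P.cc i j S) : ℚ) := by
  classical
  have hct : ∀ j, ∑ u ∈ Ioc u₀ u₁, (pr M j u).card = (Ioc u₀ u₁).card * (evs k).card + α := by
    intro j
    rw [sum_card_pr hk M j _ (hMs j), hMc j]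
  unfold F Den
  rw [← Finset.prod_mul_distrib, ← Finset.mul_prod_erase univ _ (Finset.mem_univ i)]
  have h1 : (∏ u ∈ Ioc u₀ u₁, ∏ S ∈ pr M i u, ((P.b i : ℚ) - P.el W i u S)) *
      ∏ u ∈ Ioc u₀ u₁, ∏ S ∈ pr M i u, (rho W (u + P.sg i S) : ℚ) =
      ((P.ka i : ℚ) * W) ^ ((Ioc u₀ u₁).card * (evs k).card + α) *
        (Ne k ^ (Ioc u₀ u₁).card * (No k / Ne k) ^ α) := by
    rw [← Finset.prod_mul_distrib,
      Finset.prod_congr rfl fun u hu => prod_pr_self P W M i u (h i u hu),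
      Finset.prod_mul_distrib, Finset.prod_pow_eq_pow_sum, hct, prod_Nn M i _ (hMs i), hMc i]
  have h2 : ∀ j ∈ univ.erase i, (∏ u ∈ Ioc u₀ u₁, ∏ S ∈ pr M j u, ((P.b i : ℚ) - P.el W j u S)) *
      ∏ u ∈ Ioc u₀ u₁, ∏ S ∈ pr M j u, (rho W (u + P.sg j S) : ℚ) =
      ((P.b i : ℚ) - P.b j) ^ ((Ioc u₀ u₁).card * (evs k).card + α) *
        (∏ u ∈ M j, (rho W u : ℚ)) *
        ∏ u ∈ Ioc u₀ u₁, ∏ S ∈ evs k, (rho W (u + P.cc i j S) : ℚ) := by
    intro j hj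
    have hij : i ≠ j := (Finset.mem_erase.1 hj).1.symm
    rw [← Finset.prod_mul_distrib,
      Finset.prod_congr rfl fun u hu => prod_pr_ne P W M hij u (h j u hu),
      Finset.prod_mul_distrib, Finset.prod_mul_distrib, Finset.prod_pow_eq_pow_sum, hct,
      Finset.prod_ite_mem, Finset.inter_eq_right.2 (hMs j)]
  rw [h1, Finset.prod_congr rfl h2, Finset.prod_mul_distrib, Finset.prod_mul_distrib,
    Finset.prod_pow]
  have h3 : ((P.C : ℚ) * W) = ((P.ka i : ℚ) * W) * ∏ j ∈ univ.erase i, ((P.b i : ℚ) - P.b j) := by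
    rw [← P.hka i]
    push_cast
    ring
  have h4 : (∏ j, ∏ u ∈ M j, (rho W u : ℚ)) =
      (∏ u ∈ M i, (rho W u : ℚ)) * ∏ j ∈ univ.erase i, ∏ u ∈ M j, (rho W u : ℚ) :=
    (Finset.mul_prod_erase univ (fun j => ∏ u ∈ M j, (rho W u : ℚ)) (Finset.mem_univ i)).symm
  rw [h3, h4, mul_pow]
  ring

end main

end Pool.Agent.D0H5.CGX
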