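import Pool.Agent.D0H5.CGX.Tel

/-!
# The values at the points
-/

set_option autoImplicit false

namespace Pool.Agent.D0H5.CGX

open Finset

variable {k : ℕ}

/-- the quotients at the two ends -/
def Kq (W u₀ u₁ y : ℤ) : ℚ := (rho W (u₁ + y) : ℚ) / rho W (u₀ + y)

/-- the index set of the quotients -/
noncomputable def Tr (P : Par k) (X : ℤ) (i : Fin k) : Finset (Fin k × Finset (Fin k) × ℤ) :=
  ((univ.erase i) ×ˢ (evs k) ×ˢ (Ioc (- X) X)).filter fun t => t.2.2 ≤ P.cc i t.1 t.2.1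

lemma prod_Tr (P : Par k) (X : ℤ) (i : Fin k) (hX : ∀ i j S, P.cc i j S ≤ X) (f : ℤ → ℚ) :
    ∏ j ∈ univ.erase i, ∏ S ∈ evs k, ∏ y ∈ Ioc (- X) (P.cc i j S), f y =
      ∏ t ∈ Tr P X i, f t.2.2 := by
  unfold Tr
  rw [Finset.prod_filter, Finset.prod_product]
  apply Finset.prod_congr rfl
  intro j _
  rw [Finset.prod_product]
  apply Finset.prod_congr rfl
  intro S _
  rw [← Finset.prod_filter]
  congr 1
  ext y
  rw [Finset.mem_filter, Finset.mem_Ioc, Finset.mem_Ioc]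
  have := hX i j S
  change _ ↔ (- X < y ∧ y ≤ X) ∧ y ≤ P.cc i j S
  omega

theorem value (hk : 0 < k) (P : Par k) (W X u₀ u₁ : ℤ) (M : Fin k → Finset ℤ) (α : ℕ)
    (hW : 0 < W) (h01 : u₀ ≤ u₁) (hX : 0 ≤ u₀ - X)
    (hc : ∀ i j S, - X ≤ P.cc i j S ∧ P.cc i j S ≤ X) (hs : ∀ j S, - X ≤ P.sg j S)
    (hMs : ∀ j, M j ⊆ Ioc u₀ u₁) (hMc : ∀ j, (M j).card = α)
    (hev : Even ((Ioc u₀ u₁).card * (evs k).card + α)) (c : ℚ) (x : Fin k → ℚ) (hc0 : 0 < c)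
    (hM : ∀ i, (∏ u ∈ M i, (rho W u : ℚ)) = c * (∏ t ∈ Tr P X i, Kq W u₀ u₁ t.2.2) * x i) :
    ∃ v : ℚ, 0 < v ∧ ∀ i, F P W M u₀ u₁ i * x i = v := by
  classical
  have hpos : ∀ z : ℤ, u₀ - X < z → (0 : ℚ) < rho W z := by
    intro z hz
    have := le_rho hW (x := z) (by omega)
    have h2 : 0 < rho W z := by omega
    exact_mod_cast h2
  have hne : ∀ j, ∀ u ∈ Ioc u₀ u₁, ∀ S, (0 : ℚ) < rho W (u + P.sg j S) := by
    intro j u hu S
    rw [Finset.mem_Ioc] at hu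
    apply hpos
    have := hs j S
    omega
  have hne' : ∀ j, ∀ u ∈ Ioc u₀ u₁, ∀ S, rho W (u + P.sg j S) ≠ 0 := by
    intro j u hu S h0
    have := hne j u hu S
    rw [h0] at this
    simp at this
  have hMpos : ∀ j, (0 : ℚ) < ∏ u ∈ M j, (rho W u : ℚ) := by
    intro j
    apply Finset.prod_pos
    intro u hu
    have := Finset.mem_Ioc.1 (hMs j hu)
    apply hpos
    have h2 := hc j j ∅
    omega
  have hDen : 0 < Den P W M u₀ u₁ :=
    Finset.prod_pos fun j _ => Finset.prod_pos fun u hu => Finset.prod_pos fun S _ => hne j u hu S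
  set Z : ℚ := ∏ u ∈ Ioc u₀ u₁, (rho W (u + - X) : ℚ) with hZ
  have hZ0 : 0 < Z := by
    apply Finset.prod_pos
    intro u hu
    rw [Finset.mem_Ioc] at hu
    apply hpos
    omega
  have hX0 : 0 ≤ X := by
    have := hc ⟨0, hk⟩ ⟨0, hk⟩ ∅
    omega
  have hK0 : ∀ y, - X < y → 0 < Kq W u₀ u₁ y := by
    intro y hy
    exact div_pos (hpos _ (by omega)) (hpos _ (by omega))
  set G : ℚ := ((P.C : ℚ) * W) ^ ((Ioc u₀ u₁).card * (evs k).card + α) *
        (Ne k ^ (Ioc u₀ u₁).card * (No k / Ne k) ^ α) * (∏ j, ∏ u ∈ M j, (rho W u : ℚ)) with hG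
  have hG0 : 0 < G := by
    have h1 : (0 : ℚ) < ((P.C : ℚ) * W) ^ ((Ioc u₀ u₁).card * (evs k).card + α) := by
      apply hev.pow_pos
      apply mul_ne_zero
      · exact_mod_cast P.hC.ne
      · exact_mod_cast hW.ne'
    have h2 : (0 : ℚ) < Ne k ^ (Ioc u₀ u₁).card * (No k / Ne k) ^ α :=
      mul_pos (pow_pos Ne_pos _) (pow_pos (div_pos No_pos Ne_pos) _)
    exact mul_pos (mul_pos h1 h2) (Finset.prod_pos fun j _ => hMpos j)
  refine ⟨G * (Z ^ (evs k).card) ^ (k - 1) / (c * Den P W M u₀ u₁), by positivity, fun i => ?_⟩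
  have hmain := F_mul_Den hk α hMs hMc hne' i
  rw [← hG] at hmain
  have htel : ∏ j ∈ univ.erase i, ∏ u ∈ Ioc u₀ u₁, ∏ S ∈ evs k, (rho W (u + P.cc i j S) : ℚ) =
      (Z ^ (evs k).card) ^ (k - 1) * ∏ t ∈ Tr P X i, Kq W u₀ u₁ t.2.2 := by
    rw [← prod_Tr P X i (fun i j S => (hc i j S).2)]
    have h1 : ∀ j ∈ univ.erase i, ∏ u ∈ Ioc u₀ u₁, ∏ S ∈ evs k, (rho W (u + P.cc i j S) : ℚ) =
        Z ^ (evs k).card * ∏ S ∈ evs k, ∏ y ∈ Ioc (- X) (P.cc i j S), Kq W u₀ u₁ y := by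
      intro j _
      rw [Finset.prod_comm]
      have h2 : ∀ S ∈ evs k, ∏ u ∈ Ioc u₀ u₁, (rho W (u + P.cc i j S) : ℚ) =
          Z * ∏ y ∈ Ioc (- X) (P.cc i j S), Kq W u₀ u₁ y := by
        intro S _
        exact tel W u₀ u₁ X (P.cc i j S) hW h01 hX (hc i j S).1
      rw [Finset.prod_congr rfl h2, Finset.prod_mul_distrib, Finset.prod_const]
    rw [Finset.prod_congr rfl h1, Finset.prod_mul_distrib, Finset.prod_const,
      Finset.card_erase_of_mem (Finset.mem_univ i), Finset.card_univ, Fintype.card_fin]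
  rw [htel, hM i] at hmain
  have hT : (0 : ℚ) < ∏ t ∈ Tr P X i, Kq W u₀ u₁ t.2.2 := by
    apply Finset.prod_pos
    intro t ht
    unfold Tr at ht
    rw [Finset.mem_filter, Finset.mem_product, Finset.mem_product, Finset.mem_Ioc] at ht
    exact hK0 _ ht.1.2.2.1
  rw [eq_div_iff (mul_pos hc0 hDen).ne']
  apply mul_right_cancel₀ hT.ne'
  linear_combination hmain

end Pool.Agent.D0H5.CGX
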